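import Mathlib
import Pool.Agent.H58.Heesch.Defs
import Pool.Agent.H58.Heesch.Ball

set_option autoImplicit false

namespace Pool.Agent.H58.HeeschC

open Metric Set Pool.Agent.H58.Heesch

variable {m : ℕ}

/-- Euclidean space of dimension `m + 3`. -/
abbrev V (m : ℕ) := E (m + 1)

/-- the unit vector in direction `0` -/
noncomputable abbrev ee (m : ℕ) : V m := e0 (m + 1)

lemma val_two : ((2 : Fin (m + 1 + 2)) : ℕ) = 2 := by
  change 2 % (m + 1 + 2) = 2
  exact Nat.mod_eq_of_lt (by omega)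

lemma two_ne : (2 : Fin (m + 1 + 2)) ≠ 0 := by
  intro h
  have := congrArg Fin.val h
  rw [val_two] at this
  simp at this

lemma one_ne : (1 : Fin (m + 1 + 2)) ≠ 0 := by
  intro h
  have := congrArg Fin.val h
  simp at this

lemma one_ne_two : (1 : Fin (m + 1 + 2)) ≠ 2 := by
  intro h
  have := congrArg Fin.val h
  rw [val_two] at this
  simp at this

noncomputable def cc (m : ℕ) : V m :=
  WithLp.toLp 2 (fun i => if i = 0 then 0 else if i = 2 then 3 / 4 else 1 / 2)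

lemma cc_zero : cc m 0 = 0 := by simp [cc]

lemma cc_two : cc m 2 = 3 / 4 := by simp [cc, two_ne]

lemma cc_ne {i : Fin (m + 1 + 2)} (h0 : i ≠ 0) (h2 : i ≠ 2) : cc m i = 1 / 2 := by
  simp [cc, h0, h2]

lemma cc_one : cc m 1 = 1 / 2 := cc_ne one_ne one_ne_two

lemma cc_bd {i : Fin (m + 1 + 2)} (h0 : i ≠ 0) : 1 / 2 ≤ cc m i ∧ cc m i ≤ 3 / 4 := by
  by_cases h2 : i = 2
  · rw [h2, cc_two]; norm_num
  · rw [cc_ne h0 h2]; norm_num

lemma ee_zero : (ee m) 0 = 1 := e0_zero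

lemma ee_ne {i : Fin (m + 1 + 2)} (h0 : i ≠ 0) : (ee m) i = 0 := by
  simp [e0, h0]

/-- the axis of the pins -/
noncomputable def ax (x : ℝ) : V m := x • ee m + cc m

lemma ax_zero (x : ℝ) : (ax x : V m) 0 = x := by
  unfold ax
  rw [PiLp.add_apply, PiLp.smul_apply, ee_zero, cc_zero]
  simp

lemma ax_ne (x : ℝ) {i : Fin (m + 1 + 2)} (h0 : i ≠ 0) : (ax x : V m) i = cc m i := by
  unfold ax
  rw [PiLp.add_apply, PiLp.smul_apply, ee_ne h0]
  simp

lemma ax_sub (x y : ℝ) : (ax x : V m) - ax y = (x - y) • ee m := by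
  unfold ax; module

lemma ax_add (x y : ℝ) : (ax (x + y) : V m) = ax x + y • ee m := by
  unfold ax; module

lemma norm_ee : ‖ee m‖ = 1 := norm_e0

/-- the vector from the axis to `p` -/
noncomputable def N (p : V m) : V m := p - ax (p 0)

/-- the distance from the axis -/
noncomputable def rad (p : V m) : ℝ := ‖N p‖

lemma N_zero (p : V m) : (N p) 0 = 0 := by
  unfold N
  rw [PiLp.sub_apply, ax_zero, sub_self]

lemma N_ne (p : V m) {i : Fin (m + 1 + 2)} (h0 : i ≠ 0) : (N p) i = p i - cc m i := by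
  unfold N
  rw [PiLp.sub_apply, ax_ne _ h0]

lemma N_ax (x : ℝ) : N (ax x : V m) = 0 := by
  unfold N
  rw [ax_zero, sub_self]

lemma N_comb (p q : V m) (s : ℝ) : N ((1 - s) • p + s • q) = (1 - s) • N p + s • N q := by
  unfold N ax
  rw [PiLp.add_apply, PiLp.smul_apply, PiLp.smul_apply, smul_eq_mul, smul_eq_mul]
  module

/-- the component orthogonal to `ee` -/
noncomputable def pp (v : V m) : V m := v - (v 0) • ee m

lemma N_add (p v : V m) : N (p + v) = N p + pp v := by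
  unfold N ax pp
  rw [PiLp.add_apply]
  module

lemma norm_sq_pp (v : V m) : ‖pp v‖ ^ 2 + (v 0) ^ 2 = ‖v‖ ^ 2 := by
  unfold pp
  rw [norm_sub_sq_real, inner_smul_right, inner_e0', norm_smul, norm_ee, Real.norm_eq_abs,
    mul_one, sq_abs]
  ring

lemma norm_pp_le (v : V m) : ‖pp v‖ ≤ ‖v‖ := by
  have := norm_sq_pp v
  nlinarith [norm_nonneg (pp v), norm_nonneg v, sq_nonneg (v 0)]

lemma abs_coord_le (v : V m) (i : Fin (m + 1 + 2)) : |v i| ≤ ‖v‖ := by
  have := PiLp.norm_apply_le v i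
  rwa [Real.norm_eq_abs] at this

lemma coord_rad (p : V m) {i : Fin (m + 1 + 2)} (h0 : i ≠ 0) : |p i - cc m i| ≤ rad p := by
  rw [← N_ne p h0]
  exact abs_coord_le _ _

lemma rad_nonneg (p : V m) : 0 ≤ rad p := norm_nonneg _

lemma rad_add_le (p v : V m) : rad (p + v) ≤ rad p + ‖v‖ := by
  unfold rad
  rw [N_add]
  exact (norm_add_le _ _).trans (add_le_add_right (norm_pp_le v) _)

lemma le_rad_add (p v : V m) : rad p - ‖v‖ ≤ rad (p + v) := by
  have := rad_add_le (p + v) (-v)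
  rw [add_neg_cancel_right, norm_neg] at this
  linarith

lemma continuous_N : Continuous (N : V m → V m) := by
  unfold N ax
  have := continuous_coord (m := m + 1) 0
  fun_prop

lemma continuous_rad : Continuous (rad : V m → ℝ) := by
  unfold rad
  exact continuous_N.norm

/-! ### The pieces -/

/-- open plate without its pin hole -/
def O1 (r f : ℝ) : Set (V m) :=
  {p | f < p 0 ∧ p 0 < f + 1 ∧ (∀ i, i ≠ 0 → 0 < p i ∧ p i < 1) ∧ 1 / 2 < p 2 ∧ r < rad p}

/-- open pin and the part of the plate behind it -/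
def O2 (r f : ℝ) : Set (V m) :=
  {p | f - 1 / 32 < p 0 ∧ p 0 < f + 31 / 32 ∧ rad p < r}

/-- open lane -/
def O3 (c f : ℝ) : Set (V m) :=
  {p | f < p 0 - c * p 1 ∧ p 0 - c * p 1 < f + 1 ∧ (∀ i, i ≠ 0 → 0 < p i ∧ p i < 1) ∧ p 2 < 1 / 2}

def P1 (r f : ℝ) : Set (V m) :=
  {p | f ≤ p 0 ∧ p 0 ≤ f + 1 ∧ (∀ i, i ≠ 0 → 0 ≤ p i ∧ p i ≤ 1) ∧ 1 / 2 ≤ p 2 ∧ r ≤ rad p}

def P2 (r f : ℝ) : Set (V m) :=
  {p | f - 1 / 32 ≤ p 0 ∧ p 0 ≤ f + 31 / 32 ∧ rad p ≤ r}

def P3 (c f : ℝ) : Set (V m) :=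
  {p | f ≤ p 0 - c * p 1 ∧ p 0 - c * p 1 ≤ f + 1 ∧ (∀ i, i ≠ 0 → 0 ≤ p i ∧ p i ≤ 1) ∧ p 2 ≤ 1 / 2}

/-- the open dense part of the tile -/
def B0 (F : Set ℤ) (c r : ℝ) : Set (V m) := {p | ∃ f ∈ F, p ∈ O1 r f ∨ p ∈ O2 r f ∨ p ∈ O3 c f}

/-- the tile -/
def BB (F : Set ℤ) (c r : ℝ) : Set (V m) := {p | ∃ f ∈ F, p ∈ P1 r f ∨ p ∈ P2 r f ∨ p ∈ P3 c f}

lemma isOpen_obox : IsOpen {p : V m | ∀ i, i ≠ 0 → 0 < p i ∧ p i < 1} := by
  have : {p : V m | ∀ i, i ≠ 0 → 0 < p i ∧ p i < 1} =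
      ⋂ i : Fin (m + 1 + 2), {p : V m | i ≠ 0 → 0 < p i ∧ p i < 1} := by
    ext p; simp
  rw [this]
  refine isOpen_iInter_of_finite fun i => ?_
  by_cases hi : i = 0
  · simp [hi]
  · simp only [hi, ne_eq, not_false_eq_true, forall_const]
    exact (isOpen_lt continuous_const (continuous_coord i)).inter
      (isOpen_lt (continuous_coord i) continuous_const)

lemma isClosed_cbox : IsClosed {p : V m | ∀ i, i ≠ 0 → 0 ≤ p i ∧ p i ≤ 1} := by
  have : {p : V m | ∀ i, i ≠ 0 → 0 ≤ p i ∧ p i ≤ 1} =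
      ⋂ i : Fin (m + 1 + 2), {p : V m | i ≠ 0 → 0 ≤ p i ∧ p i ≤ 1} := by
    ext p; simp
  rw [this]
  refine isClosed_iInter fun i => ?_
  by_cases hi : i = 0
  · simp [hi]
  · simp only [hi, ne_eq, not_false_eq_true, forall_const]
    exact (isClosed_le continuous_const (continuous_coord i)).inter
      (isClosed_le (continuous_coord i) continuous_const)

lemma cont_shear (c : ℝ) : Continuous (fun p : V m => p 0 - c * p 1) :=
  (continuous_coord 0).sub (continuous_const.mul (continuous_coord 1))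

lemma isOpen_O1 (r f : ℝ) : IsOpen (O1 r f : Set (V m)) :=
  (isOpen_lt continuous_const (continuous_coord 0)).inter
    ((isOpen_lt (continuous_coord 0) continuous_const).inter
      (isOpen_obox.inter ((isOpen_lt continuous_const (continuous_coord 2)).inter
        (isOpen_lt continuous_const continuous_rad))))

lemma isOpen_O2 (r f : ℝ) : IsOpen (O2 r f : Set (V m)) :=
  (isOpen_lt continuous_const (continuous_coord 0)).inter
    ((isOpen_lt (continuous_coord 0) continuous_const).inter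
      (isOpen_lt continuous_rad continuous_const))

lemma isOpen_O3 (c f : ℝ) : IsOpen (O3 c f : Set (V m)) :=
  (isOpen_lt continuous_const (cont_shear c)).inter
    ((isOpen_lt (cont_shear c) continuous_const).inter
      (isOpen_obox.inter (isOpen_lt (continuous_coord 2) continuous_const)))

lemma isClosed_P1 (r f : ℝ) : IsClosed (P1 r f : Set (V m)) :=
  (isClosed_le continuous_const (continuous_coord 0)).inter
    ((isClosed_le (continuous_coord 0) continuous_const).inter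
      (isClosed_cbox.inter ((isClosed_le continuous_const (continuous_coord 2)).inter
        (isClosed_le continuous_const continuous_rad))))

lemma isClosed_P2 (r f : ℝ) : IsClosed (P2 r f : Set (V m)) :=
  (isClosed_le continuous_const (continuous_coord 0)).inter
    ((isClosed_le (continuous_coord 0) continuous_const).inter
      (isClosed_le continuous_rad continuous_const))

lemma isClosed_P3 (c f : ℝ) : IsClosed (P3 c f : Set (V m)) :=
  (isClosed_le continuous_const (cont_shear c)).inter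
    ((isClosed_le (cont_shear c) continuous_const).inter
      (isClosed_cbox.inter (isClosed_le (continuous_coord 2) continuous_const)))

lemma isOpen_B0 (F : Set ℤ) (c r : ℝ) : IsOpen (B0 F c r : Set (V m)) := by
  have : (B0 F c r : Set (V m)) = ⋃ f ∈ F, (O1 r (f : ℝ) ∪ (O2 r f ∪ O3 c f)) := by
    ext p; simp [B0]
  rw [this]
  exact isOpen_biUnion fun f _ => (isOpen_O1 r f).union ((isOpen_O2 r f).union (isOpen_O3 c f))

lemma isClosed_BB {F : Set ℤ} (hF : F.Finite) (c r : ℝ) : IsClosed (BB F c r : Set (V m)) := by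
  have : (BB F c r : Set (V m)) = ⋃ f ∈ F, (P1 r (f : ℝ) ∪ (P2 r f ∪ P3 c f)) := by
    ext p; simp [BB]
  rw [this]
  exact hF.isClosed_biUnion fun f _ => (isClosed_P1 r f).union ((isClosed_P2 r f).union (isClosed_P3 c f))

lemma O1_sub (r f : ℝ) : (O1 r f : Set (V m)) ⊆ P1 r f := fun _ h =>
  ⟨h.1.le, h.2.1.le, fun i hi => ⟨(h.2.2.1 i hi).1.le, (h.2.2.1 i hi).2.le⟩, h.2.2.2.1.le, h.2.2.2.2.le⟩

lemma O2_sub (r f : ℝ) : (O2 r f : Set (V m)) ⊆ P2 r f := fun _ h => ⟨h.1.le, h.2.1.le, h.2.2.le⟩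

lemma O3_sub (c f : ℝ) : (O3 c f : Set (V m)) ⊆ P3 c f := fun _ h =>
  ⟨h.1.le, h.2.1.le, fun i hi => ⟨(h.2.2.1 i hi).1.le, (h.2.2.1 i hi).2.le⟩, h.2.2.2.le⟩

lemma B0_sub (F : Set ℤ) (c r : ℝ) : (B0 F c r : Set (V m)) ⊆ BB F c r := by
  rintro p ⟨f, hf, h | h | h⟩
  · exact ⟨f, hf, Or.inl (O1_sub _ _ h)⟩
  · exact ⟨f, hf, Or.inr (Or.inl (O2_sub _ _ h))⟩
  · exact ⟨f, hf, Or.inr (Or.inr (O3_sub _ _ h))⟩

/-- coordinates of a convex combination -/
lemma comb_apply (p q : V m) (s : ℝ) (i : Fin (m + 1 + 2)) :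
    ((1 - s) • p + s • q) i = (1 - s) * p i + s * q i := by
  rw [PiLp.add_apply, PiLp.smul_apply, PiLp.smul_apply, smul_eq_mul, smul_eq_mul]

lemma strict_lt {a x y s : ℝ} (h1 : a ≤ x) (h2 : a < y) (hs : 0 < s) (hs1 : s ≤ 1) :
    a < (1 - s) * x + s * y := by
  nlinarith [mul_le_mul_of_nonneg_left h1 (by linarith : 0 ≤ 1 - s), mul_lt_mul_of_pos_left h2 hs]

lemma strict_gt {a x y s : ℝ} (h1 : x ≤ a) (h2 : y < a) (hs : 0 < s) (hs1 : s ≤ 1) :
    (1 - s) * x + s * y < a := by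
  nlinarith [mul_le_mul_of_nonneg_left h1 (by linarith : 0 ≤ 1 - s), mul_lt_mul_of_pos_left h2 hs]

lemma weak_le {a x y s : ℝ} (h1 : a ≤ x) (h2 : a ≤ y) (hs : 0 ≤ s) (hs1 : s ≤ 1) :
    a ≤ (1 - s) * x + s * y := by
  nlinarith [mul_le_mul_of_nonneg_left h1 (by linarith : 0 ≤ 1 - s), mul_le_mul_of_nonneg_left h2 hs]

lemma weak_ge {a x y s : ℝ} (h1 : x ≤ a) (h2 : y ≤ a) (hs : 0 ≤ s) (hs1 : s ≤ 1) :
    (1 - s) * x + s * y ≤ a := by
  nlinarith [mul_le_mul_of_nonneg_left h1 (by linarith : 0 ≤ 1 - s), mul_le_mul_of_nonneg_left h2 hs]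

end Pool.Agent.H58.HeeschC
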