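import Mathlib
import Pool.Agent.H58.HeeschC.Shape

set_option autoImplicit false

namespace Pool.Agent.H58.HeeschC

open Metric Set Pool.Agent.H58.Heesch

variable {m : ℕ}

/-- a point given by its first three coordinates; the other ones are `1/2` -/
noncomputable def pt (m : ℕ) (x y z : ℝ) : V m :=
  WithLp.toLp 2 (fun i => if i = 0 then x else if i = 1 then y else if i = 2 then z else 1 / 2)

lemma pt_zero (x y z : ℝ) : pt m x y z 0 = x := by simp [pt]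

lemma pt_one (x y z : ℝ) : pt m x y z 1 = y := by simp [pt]

lemma pt_two (x y z : ℝ) : pt m x y z 2 = z := by
  have h1 := two_ne (m := m)
  have h2 := (one_ne_two (m := m)).symm
  simp [pt, h1, h2]

lemma pt_ne (x y z : ℝ) {i : Fin (m + 1 + 2)} (h0 : i ≠ 0) (h1 : i ≠ 1) (h2 : i ≠ 2) :
    pt m x y z i = 1 / 2 := by simp [pt, h0, h1, h2]

lemma pt_bd {x y z : ℝ} (hy : 0 < y ∧ y < 1) (hz : 0 < z ∧ z < 1) :
    ∀ i, i ≠ 0 → 0 < pt m x y z i ∧ pt m x y z i < 1 := by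
  intro i h0
  by_cases h1 : i = 1
  · rw [h1, pt_one]; exact hy
  by_cases h2 : i = 2
  · rw [h2, pt_two]; exact hz
  rw [pt_ne x y z h0 h1 h2]; norm_num

lemma mem_closure_of_seg {S : Set (V m)} {p q : V m}
    (h : ∀ s : ℝ, 0 < s → s ≤ 1 → (1 - s) • p + s • q ∈ S) : p ∈ closure S := by
  have hlim : Filter.Tendsto (fun t : ℝ => (1 - t) • p + t • q)
      (nhdsWithin 0 (Ioo 0 1)) (nhds p) := by
    have hc : Continuous (fun t : ℝ => (1 - t) • p + t • q) := by fun_prop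
    have := hc.tendsto 0
    simp only [sub_zero, one_smul, zero_smul, add_zero] at this
    exact this.mono_left nhdsWithin_le_nhds
  have : (nhdsWithin (0 : ℝ) (Ioo 0 1)).NeBot := by
    rw [← mem_closure_iff_nhdsWithin_neBot, closure_Ioo (by norm_num)]
    exact ⟨le_rfl, by norm_num⟩
  exact mem_closure_of_tendsto hlim (eventually_nhdsWithin_of_forall fun t ht => h t ht.1 ht.2.le)

lemma N_smul_dir {p : V m} (hp : 0 < rad p) : N p = rad p • ((rad p)⁻¹ • N p) := by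
  rw [smul_smul, mul_inv_cancel₀ hp.ne', one_smul]

lemma norm_dir {p : V m} (hp : 0 < rad p) : ‖(rad p)⁻¹ • N p‖ = 1 := by
  rw [norm_smul, norm_inv, Real.norm_eq_abs, abs_of_pos hp]
  exact inv_mul_cancel₀ hp.ne'

lemma N_dir (p : V m) : N (ax (p 0) + (rad p)⁻¹ • N p) = (rad p)⁻¹ • N p := by
  rw [N_add, N_ax, zero_add]
  unfold pp
  rw [PiLp.smul_apply, N_zero]
  simp

/-- the target point of the cones in the plate -/
noncomputable def qP (f : ℝ) (p : V m) : V m := ax (f + 1 / 2) + (1 / 8 : ℝ) • ((rad p)⁻¹ • N p)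

lemma N_qP (f : ℝ) (p : V m) : N (qP f p) = (1 / 8 : ℝ) • ((rad p)⁻¹ • N p) := by
  unfold qP
  rw [N_add, N_ax, zero_add]
  unfold pp
  rw [PiLp.smul_apply, PiLp.smul_apply, N_zero]
  simp

lemma qP_zero (f : ℝ) (p : V m) : qP f p 0 = f + 1 / 2 := by
  unfold qP
  rw [PiLp.add_apply, PiLp.smul_apply, PiLp.smul_apply, N_zero, ax_zero]
  simp

lemma qP_ne (f : ℝ) {p : V m} (hp : 0 < rad p) {i : Fin (m + 1 + 2)} (h0 : i ≠ 0) :
    |qP f p i - cc m i| ≤ 1 / 8 := by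
  unfold qP
  rw [PiLp.add_apply, PiLp.smul_apply, ax_ne _ h0, add_sub_cancel_left, smul_eq_mul, abs_mul]
  have h1 := abs_coord_le ((rad p)⁻¹ • N p) i
  rw [norm_dir hp] at h1
  rw [abs_of_pos (by norm_num : (0 : ℝ) < 1 / 8)]
  linarith

/-- cones from points of the plate stay in the plate -/
lemma cone_P1 {r f : ℝ} (hr0 : 0 < r) (hr : r ≤ 1 / 16) {p v : V m} (hp : p ∈ P1 r f)
    (hv : ‖v‖ ≤ 1 / 16) {s : ℝ} (hs : 0 ≤ s) (hs1 : s ≤ 1) :
    (1 - s) • p + s • (qP f p + v) ∈ P1 r f := by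
  obtain ⟨h1, h2, h3, h4, h5⟩ := hp
  have hrad : 0 < rad p := lt_of_lt_of_le hr0 h5
  have hvi : ∀ i, |v i| ≤ 1 / 16 := fun i => (abs_coord_le v i).trans hv
  have hq : ∀ i, i ≠ 0 → |(qP f p + v) i - cc m i| ≤ 3 / 16 := by
    intro i hi
    have h6 := qP_ne f hrad hi
    have h7 := hvi i
    rw [PiLp.add_apply]
    rw [abs_le] at h6 h7 ⊢
    constructor <;> linarith [h6.1, h6.2, h7.1, h7.2]
  have hq0 : |(qP f p + v) 0 - (f + 1 / 2)| ≤ 1 / 16 := by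
    rw [PiLp.add_apply, qP_zero, add_sub_cancel_left]
    exact hvi 0
  rw [abs_le] at hq0
  refine ⟨?_, ?_, ?_, ?_, ?_⟩
  · rw [comb_apply]
    exact weak_le h1 (by linarith [hq0.1]) hs hs1
  · rw [comb_apply]
    exact weak_ge h2 (by linarith [hq0.2]) hs hs1
  · intro i hi
    have h6 := hq i hi
    rw [abs_le] at h6
    have h7 := cc_bd (m := m) hi
    rw [comb_apply]
    exact ⟨weak_le (h3 i hi).1 (by linarith [h6.1, h7.1]) hs hs1,
      weak_ge (h3 i hi).2 (by linarith [h6.2, h7.2]) hs hs1⟩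
  · have h6 := hq 2 two_ne
    rw [cc_two, abs_le] at h6
    rw [comb_apply]
    exact weak_le h4 (by linarith [h6.1]) hs hs1
  · have h6 : N ((1 - s) • p + s • (qP f p + v)) =
        ((1 - s) * rad p + s * (1 / 8)) • ((rad p)⁻¹ • N p) + s • pp v := by
      rw [N_comb, N_add, N_qP]
      nth_rewrite 1 [N_smul_dir hrad]
      module
    unfold rad at *
    rw [h6]
    have h7 : ‖((1 - s) * ‖N p‖ + s * (1 / 8)) • (‖N p‖⁻¹ • N p)‖ = (1 - s) * ‖N p‖ + s * (1 / 8) := by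
      have := norm_dir (p := p) hrad
      unfold rad at this
      rw [norm_smul, this, mul_one, Real.norm_eq_abs, abs_of_nonneg]
      have : 0 ≤ (1 - s) * ‖N p‖ := mul_nonneg (by linarith) hrad.le
      linarith
    have h8 : ‖s • pp v‖ ≤ s * (1 / 16) := by
      rw [norm_smul, Real.norm_eq_abs, abs_of_nonneg hs]
      exact mul_le_mul_of_nonneg_left ((norm_pp_le v).trans hv) hs
    have h9 := norm_sub_norm_le (((1 - s) * ‖N p‖ + s * (1 / 8)) • (‖N p‖⁻¹ • N p)) (-(s • pp v))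
    rw [norm_neg, sub_neg_eq_add, h7] at h9
    have h10 : (1 - s) * r ≤ (1 - s) * ‖N p‖ := mul_le_mul_of_nonneg_left h5 (by linarith)
    nlinarith [h9, h8, h10, mul_le_mul_of_nonneg_left hr hs]

lemma O1_of_P1 {r f : ℝ} (hr0 : 0 < r) (hr : r ≤ 1 / 16) {p : V m} (hp : p ∈ P1 r f)
    {s : ℝ} (hs : 0 < s) (hs1 : s ≤ 1) :
    (1 - s) • p + s • qP f p ∈ O1 r f := by
  obtain ⟨h1, h2, h3, h4, h5⟩ := hp
  have hrad : 0 < rad p := lt_of_lt_of_le hr0 h5
  refine ⟨?_, ?_, ?_, ?_, ?_⟩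
  · rw [comb_apply, qP_zero]
    exact strict_lt h1 (by linarith) hs hs1
  · rw [comb_apply, qP_zero]
    exact strict_gt h2 (by linarith) hs hs1
  · intro i hi
    have h6 := qP_ne f hrad hi
    rw [abs_le] at h6
    have h7 := cc_bd (m := m) hi
    rw [comb_apply]
    exact ⟨strict_lt (h3 i hi).1 (by linarith [h6.1, h7.1]) hs hs1,
      strict_gt (h3 i hi).2 (by linarith [h6.2, h7.2]) hs hs1⟩
  · have h6 := qP_ne f hrad (i := 2) two_ne
    rw [cc_two, abs_le] at h6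
    rw [comb_apply]
    exact strict_lt h4 (by linarith [h6.1]) hs hs1
  · have h6 : N ((1 - s) • p + s • qP f p) =
        ((1 - s) * rad p + s * (1 / 8)) • ((rad p)⁻¹ • N p) := by
      rw [N_comb, N_qP]
      nth_rewrite 1 [N_smul_dir hrad]
      module
    unfold rad at *
    rw [h6]
    have h7 : ‖((1 - s) * ‖N p‖ + s * (1 / 8)) • (‖N p‖⁻¹ • N p)‖ = (1 - s) * ‖N p‖ + s * (1 / 8) := by
      have := norm_dir (p := p) hrad
      unfold rad at this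
      rw [norm_smul, this, mul_one, Real.norm_eq_abs, abs_of_nonneg]
      have : 0 ≤ (1 - s) * ‖N p‖ := mul_nonneg (by linarith) hrad.le
      linarith
    rw [h7]
    have h10 : (1 - s) * r ≤ (1 - s) * ‖N p‖ := mul_le_mul_of_nonneg_left h5 (by linarith)
    nlinarith [h10, mul_le_mul_of_nonneg_left hr hs.le]

lemma rad_comb_ax (p : V m) (x s : ℝ) (hs1 : s ≤ 1) :
    rad ((1 - s) • p + s • ax x) = (1 - s) * rad p := by
  unfold rad
  rw [N_comb, N_ax, smul_zero, add_zero, norm_smul, Real.norm_eq_abs, abs_of_nonneg (by linarith)]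

lemma O2_of_P2 {r f : ℝ} (hr0 : 0 < r) {p : V m} (hp : p ∈ P2 r f)
    {s : ℝ} (hs : 0 < s) (hs1 : s ≤ 1) :
    (1 - s) • p + s • (ax (f + 1 / 2) : V m) ∈ O2 r f := by
  obtain ⟨h1, h2, h3⟩ := hp
  refine ⟨?_, ?_, ?_⟩
  · rw [comb_apply, ax_zero]
    exact strict_lt h1 (by linarith) hs hs1
  · rw [comb_apply, ax_zero]
    exact strict_gt h2 (by linarith) hs hs1
  · rw [rad_comb_ax _ _ _ hs1]
    have := mul_le_mul_of_nonneg_left h3 (by linarith : 0 ≤ 1 - s)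
    nlinarith

/-- the center of a lane -/
noncomputable def qL (m : ℕ) (c f : ℝ) : V m := pt m (f + 1 / 2 + c / 2) (1 / 2) (1 / 4)

lemma qL_shear (c f : ℝ) : qL m c f 0 - c * qL m c f 1 = f + 1 / 2 := by
  unfold qL
  rw [pt_zero, pt_one]; ring

lemma comb_shear (p q : V m) (s c : ℝ) :
    ((1 - s) • p + s • q) 0 - c * ((1 - s) • p + s • q) 1 =
      (1 - s) * (p 0 - c * p 1) + s * (q 0 - c * q 1) := by
  rw [comb_apply, comb_apply]; ring

lemma qL_bd (c f : ℝ) : ∀ i, i ≠ 0 → 1 / 4 ≤ qL m c f i ∧ qL m c f i ≤ 1 / 2 := by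
  intro i h0
  unfold qL
  by_cases h1 : i = 1
  · rw [h1, pt_one]; norm_num
  by_cases h2 : i = 2
  · rw [h2, pt_two]; norm_num
  rw [pt_ne _ _ _ h0 h1 h2]; norm_num

lemma O3_of_P3 {c f : ℝ} {p : V m} (hp : p ∈ P3 c f) {s : ℝ} (hs : 0 < s) (hs1 : s ≤ 1) :
    (1 - s) • p + s • qL m c f ∈ O3 c f := by
  obtain ⟨h1, h2, h3, h4⟩ := hp
  refine ⟨?_, ?_, ?_, ?_⟩
  · rw [comb_shear, qL_shear]
    exact strict_lt h1 (by linarith) hs hs1
  · rw [comb_shear, qL_shear]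
    exact strict_gt h2 (by linarith) hs hs1
  · intro i hi
    have h6 := qL_bd (m := m) c f i hi
    rw [comb_apply]
    exact ⟨strict_lt (h3 i hi).1 (by linarith [h6.1]) hs hs1,
      strict_gt (h3 i hi).2 (by linarith [h6.2]) hs hs1⟩
  · rw [comb_apply]
    refine strict_gt h4 ?_ hs hs1
    unfold qL
    rw [pt_two]; norm_num

lemma BB_sub_closure {F : Set ℤ} {c r : ℝ} (hr0 : 0 < r) (hr : r ≤ 1 / 16) :
    (BB F c r : Set (V m)) ⊆ closure (B0 F c r) := by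
  rintro p ⟨f, hf, h | h | h⟩
  · exact mem_closure_of_seg fun s hs hs1 => ⟨f, hf, Or.inl (O1_of_P1 hr0 hr h hs hs1)⟩
  · exact mem_closure_of_seg fun s hs hs1 => ⟨f, hf, Or.inr (Or.inl (O2_of_P2 hr0 h hs hs1))⟩
  · exact mem_closure_of_seg fun s hs hs1 => ⟨f, hf, Or.inr (Or.inr (O3_of_P3 h hs hs1))⟩

lemma closure_B0 {F : Set ℤ} (hF : F.Finite) {c r : ℝ} (hr0 : 0 < r) (hr : r ≤ 1 / 16) :
    closure (B0 F c r : Set (V m)) = BB F c r :=
  Subset.antisymm (closure_minimal (B0_sub F c r) (isClosed_BB hF c r)) (BB_sub_closure hr0 hr)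

lemma B0_sub_interior (F : Set ℤ) (c r : ℝ) : (B0 F c r : Set (V m)) ⊆ interior (BB F c r) :=
  interior_maximal (B0_sub F c r) (isOpen_B0 F c r)

lemma closure_interior_BB {F : Set ℤ} (hF : F.Finite) {c r : ℝ} (hr0 : 0 < r) (hr : r ≤ 1 / 16) :
    closure (interior (BB F c r : Set (V m))) = BB F c r := by
  refine Subset.antisymm (closure_minimal interior_subset (isClosed_BB hF c r)) ?_
  exact (BB_sub_closure hr0 hr).trans (closure_mono (B0_sub_interior F c r))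

/-- bound of the norm by the coordinates -/
lemma norm_le_coords {v : V m} {K : ℝ} (hv : ∀ i, i ≠ 0 → |v i| ≤ K) :
    ‖v‖ ≤ |v 0| + (m + 2) * K := by
  have h1 : ‖v‖ ≤ ∑ i, |v i| := by
    rw [EuclideanSpace.norm_eq]
    refine Real.sqrt_le_iff.mpr ⟨Finset.sum_nonneg fun i _ => abs_nonneg _, ?_⟩
    simp only [Real.norm_eq_abs]
    exact Finset.sum_sq_le_sq_sum_of_nonneg fun i _ => abs_nonneg _
  refine h1.trans ?_
  rw [Fin.sum_univ_succ]
  have h2 : ∑ i : Fin (m + 2), |v i.succ| ≤ ∑ i : Fin (m + 2), K :=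
    Finset.sum_le_sum fun i _ => hv _ (Fin.succ_ne_zero i)
  rw [Finset.sum_const, Finset.card_univ, Fintype.card_fin, nsmul_eq_mul] at h2
  push_cast at h2
  linarith

/-- all points of the tile are in a box -/
lemma BB_box {F : Set ℤ} {c r : ℝ} (hc : 0 ≤ c) (hr : r ≤ 1 / 16) {M : ℝ} (hF : ∀ f ∈ F, (0 : ℝ) ≤ f ∧ (f : ℝ) ≤ M)
    {p : V m} (hp : p ∈ BB F c r) :
    -(1 / 32) ≤ p 0 ∧ p 0 ≤ M + 1 + c ∧ ∀ i, i ≠ 0 → 0 ≤ p i ∧ p i ≤ 1 := by
  obtain ⟨f, hf, h | h | h⟩ := hp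
  · obtain ⟨h1, h2, h3, h4, h5⟩ := h
    have := hF f hf
    exact ⟨by linarith [this.1], by linarith [this.2], h3⟩
  · obtain ⟨h1, h2, h3⟩ := h
    have := hF f hf
    refine ⟨by linarith [this.1], by linarith [this.2], fun i hi => ?_⟩
    have h4 := coord_rad p hi
    have h5 := cc_bd (m := m) hi
    rw [abs_le] at h4
    constructor <;> linarith [h4.1, h4.2, h5.1, h5.2]
  · obtain ⟨h1, h2, h3, h4⟩ := h
    have := hF f hf
    have h5 := h3 1 one_ne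
    have h6 : c * p 1 ≤ c := by nlinarith [h5.2]
    have h7 : 0 ≤ c * p 1 := mul_nonneg hc h5.1
    exact ⟨by linarith [this.1], by linarith [this.2], h3⟩

lemma BB_diam {F : Set ℤ} {c r : ℝ} (hc : 0 ≤ c) (hr : r ≤ 1 / 16) {M : ℝ} (hF : ∀ f ∈ F, (0 : ℝ) ≤ f ∧ (f : ℝ) ≤ M)
    {p q : V m} (hp : p ∈ BB F c r) (hq : q ∈ BB F c r) : dist p q ≤ M + c + m + 4 := by
  obtain ⟨h1, h2, h3⟩ := BB_box hc hr hF hp
  obtain ⟨h4, h5, h6⟩ := BB_box hc hr hF hq
  rw [dist_eq_norm]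
  have h7 : ‖p - q‖ ≤ |(p - q) 0| + (m + 2) * 1 := by
    refine norm_le_coords fun i hi => ?_
    have h8 := h3 i hi
    have h9 := h6 i hi
    rw [PiLp.sub_apply, abs_le]
    constructor <;> linarith [h8.1, h8.2, h9.1, h9.2]
  have h8 : |(p - q) 0| ≤ M + c + 1 + 1 / 32 := by
    rw [PiLp.sub_apply, abs_le]
    constructor <;> linarith
  linarith

lemma isCompact_BB {F : Set ℤ} (hFf : F.Finite) {c r : ℝ} (hc : 0 ≤ c) (hr : r ≤ 1 / 16) {M : ℝ}
    (hF : ∀ f ∈ F, (0 : ℝ) ≤ f ∧ (f : ℝ) ≤ M) : IsCompact (BB F c r : Set (V m)) := by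
  refine isCompact_of_isClosed_isBounded (isClosed_BB hFf c r) ?_
  rw [isBounded_iff]
  exact ⟨M + c + m + 4, fun p hp q hq => BB_diam hc hr hF hp hq⟩

lemma ax_half_mem_O2 {r : ℝ} (hr0 : 0 < r) (f : ℝ) : (ax (f + 1 / 2) : V m) ∈ O2 r f := by
  refine ⟨?_, ?_, ?_⟩
  · rw [ax_zero]; linarith
  · rw [ax_zero]; linarith
  · unfold rad; rw [N_ax, norm_zero]; exact hr0

theorem isBody_BB {F : Set ℤ} (hFf : F.Finite) (hne : F.Nonempty) {c r : ℝ} (hc : 0 ≤ c) (hr0 : 0 < r)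
    (hr : r ≤ 1 / 16) {M : ℝ} (hF : ∀ f ∈ F, (0 : ℝ) ≤ f ∧ (f : ℝ) ≤ M) : IsBody (BB F c r : Set (V m)) := by
  refine ⟨isCompact_BB hFf hc hr hF, ?_, closure_interior_BB hFf hr0 hr⟩
  obtain ⟨f, hf⟩ := hne
  exact ⟨ax (f + 1 / 2), B0_sub_interior F c r ⟨f, hf, Or.inr (Or.inl (ax_half_mem_O2 hr0 f))⟩⟩

end Pool.Agent.H58.HeeschC
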