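import Mathlib

set_option autoImplicit false

namespace Pool.Agent.H58.HeeschC

/-- the four element set `{0, a, a + 2, 2 a + 2}` -/
def FF (a : ℤ) : Set ℤ := {0, a, a + 2, 2 * a + 2}

def InT (a t : ℤ) : Prop :=
  ∃ s j : ℤ, 0 ≤ j ∧ j ≤ s ∧ 2 * s + 1 ≤ a ∧ t = 2 * (a + 2) * s - 2 * a * j

/-- positions of a long exact run of translates of `FF a` -/
def TT (a : ℤ) : Set ℤ := {t | InT a t ∨ InT a (a * (a + 4) - t)}

lemma mem_FF {a f : ℤ} : f ∈ FF a ↔ f = 0 ∨ f = a ∨ f = a + 2 ∨ f = 2 * a + 2 := by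
  simp [FF]

lemma FF_symm {a f : ℤ} (hf : f ∈ FF a) : 2 * a + 2 - f ∈ FF a := by
  rw [mem_FF] at hf ⊢
  rcases hf with rfl | rfl | rfl | rfl
  · right; right; right; ring
  · right; right; left; ring
  · right; left; ring
  · left; ring

lemma good {a y z : ℤ} (ha : Odd a) (_h0 : 0 ≤ y) (h1 : y ≤ a) (h2 : y % 2 ≤ z)
    (h3 : z ≤ y + 1) : ∃ t f, InT a t ∧ f ∈ FF a ∧ t + f = a * z + 2 * y := by
  obtain ⟨k, rfl⟩ := ha
  obtain ⟨s, hs⟩ : ∃ s, s = y / 2 := ⟨_, rfl⟩
  obtain ⟨w, hw⟩ : ∃ w, w = z / 2 := ⟨_, rfl⟩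
  have hy : y = 2 * s ∨ y = 2 * s + 1 := by omega
  have hz : z = 2 * w ∨ z = 2 * w + 1 := by omega
  rcases hy with hy | hy <;> rcases hz with hz | hz
  · refine ⟨2 * (2 * k + 1 + 2) * s - 2 * (2 * k + 1) * (s - w), 0,
      ⟨s, s - w, by omega, by omega, by omega, rfl⟩, mem_FF.mpr (Or.inl rfl), ?_⟩
    rw [hy, hz]; ring
  · refine ⟨2 * (2 * k + 1 + 2) * s - 2 * (2 * k + 1) * (s - w), 2 * k + 1,
      ⟨s, s - w, by omega, by omega, by omega, rfl⟩, mem_FF.mpr (Or.inr (Or.inl rfl)), ?_⟩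
    rw [hy, hz]; ring
  · refine ⟨2 * (2 * k + 1 + 2) * s - 2 * (2 * k + 1) * (s + 1 - w), 2 * (2 * k + 1) + 2,
      ⟨s, s + 1 - w, by omega, by omega, by omega, rfl⟩, mem_FF.mpr (Or.inr (Or.inr (Or.inr rfl))), ?_⟩
    rw [hy, hz]; ring
  · refine ⟨2 * (2 * k + 1 + 2) * s - 2 * (2 * k + 1) * (s - w), 2 * k + 1 + 2,
      ⟨s, s - w, by omega, by omega, by omega, rfl⟩, mem_FF.mpr (Or.inr (Or.inr (Or.inl rfl))), ?_⟩
    rw [hy, hz]; ring

/-- coordinates of the cells covered by the first half of the run -/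
lemma coords {a t f : ℤ} (ha : Odd a) (ht : InT a t) (hf : f ∈ FF a) (ha0 : 0 ≤ a) :
    ∃ y z, t + f = a * z + 2 * y ∧ 0 ≤ y ∧ y ≤ a ∧ y % 2 ≤ z ∧ z ≤ y + 1 ∧
      (y % 2 = 0 → z % 2 = 0 → f = 0) ∧ (y % 2 = 0 → z % 2 = 1 → f = a) ∧
      (y % 2 = 1 → z % 2 = 1 → f = a + 2) ∧ (y % 2 = 1 → z % 2 = 0 → f = 2 * a + 2) := by
  obtain ⟨k, rfl⟩ := ha
  obtain ⟨s, j, h1, h2, h3, rfl⟩ := ht
  rcases mem_FF.mp hf with rfl | rfl | rfl | rfl
  · exact ⟨2 * s, 2 * s - 2 * j, by ring, by omega, by omega, by omega, by omega,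
      by omega, by omega, by omega, by omega⟩
  · exact ⟨2 * s, 2 * s - 2 * j + 1, by ring, by omega, by omega, by omega, by omega,
      by omega, by omega, by omega, by omega⟩
  · exact ⟨2 * s + 1, 2 * s - 2 * j + 1, by ring, by omega, by omega, by omega, by omega,
      by omega, by omega, by omega, by omega⟩
  · exact ⟨2 * s + 1, 2 * s - 2 * j + 2, by ring, by omega, by omega, by omega, by omega,
      by omega, by omega, by omega, by omega⟩

lemma odd_dvd {a x y : ℤ} (ha : Odd a) (h : 2 * x = a * y) : ∃ w, x = a * w ∧ y = 2 * w := by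
  obtain ⟨k, rfl⟩ := ha
  refine ⟨x - k * y, ?_, ?_⟩
  · linear_combination (-k) * h
  · linear_combination -h

lemma unique_half {a t t' f f' : ℤ} (ha : Odd a) (ha0 : 0 < a) (ht : InT a t) (ht' : InT a t')
    (hf : f ∈ FF a) (hf' : f' ∈ FF a) (h : t + f = t' + f') : t = t' := by
  obtain ⟨y, z, e1, h1, h2, h3, h4, p1, p2, p3, p4⟩ := coords ha ht hf ha0.le
  obtain ⟨y', z', e1', h1', h2', h3', h4', p1', p2', p3', p4'⟩ := coords ha ht' hf' ha0.le
  obtain ⟨w, hw1, hw2⟩ := odd_dvd (x := y - y') (y := z' - z) ha (by linear_combination e1' - e1 + h)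
  have hw3 : -1 ≤ w := by
    by_contra hc
    push Not at hc
    nlinarith
  have hw4 : w ≤ 1 := by
    by_contra hc
    push Not at hc
    nlinarith
  have ha2 : a % 2 = 1 := Int.odd_iff.mp ha
  have hw : w = 0 := by
    rcases (by omega : w = -1 ∨ w = 0 ∨ w = 1) with rfl | rfl | rfl
    · exfalso
      have : y = 0 := by omega
      have : y' = a := by omega
      omega
    · rfl
    · exfalso
      have : y' = 0 := by omega
      have : y = a := by omega
      omega
  subst hw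
  have hy : y = y' := by omega
  have hz : z = z' := by omega
  subst hy
  subst hz
  have : f = f' := by
    rcases Int.emod_two_eq_zero_or_one y with hy | hy <;>
      rcases Int.emod_two_eq_zero_or_one z with hz | hz
    · rw [p1 hy hz, p1' hy hz]
    · rw [p2 hy hz, p2' hy hz]
    · rw [p4 hy hz, p4' hy hz]
    · rw [p3 hy hz, p3' hy hz]
  omega

lemma disjoint_halves {a t t' f f' : ℤ} (ha : Odd a) (ha0 : 0 < a) (ht : InT a t)
    (ht' : InT a t') (hf : f ∈ FF a) (hf' : f' ∈ FF a)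
    (h : (t + f) + (t' + f') = a * (a + 4) + (2 * a + 2)) : False := by
  obtain ⟨y, z, e1, h1, h2, h3, h4, -⟩ := coords ha ht hf ha0.le
  obtain ⟨y', z', e1', h1', h2', h3', h4', -⟩ := coords ha ht' hf' ha0.le
  obtain ⟨w, hw1, hw2⟩ := odd_dvd (x := y + y' - 1) (y := a + 6 - z - z') ha
    (by linear_combination h - e1 - e1')
  have hw3 : 0 ≤ w := by
    by_contra hc
    push Not at hc
    have hy : y = 0 := by nlinarith
    have hy' : y' = 0 := by nlinarith
    rw [hy, hy'] at hw1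
    have : w ≤ -1 := by omega
    have hwa : a * w = -1 := by linarith
    have : w = -1 := by nlinarith
    subst this
    have ha1 : a = 1 := by linarith
    subst ha1
    omega
  have hw4 : w ≤ 1 := by
    by_contra hc
    push Not at hc
    nlinarith
  rcases (by omega : w = 0 ∨ w = 1) with rfl | rfl
  · omega
  · omega

theorem TT_unique {a t t' f f' : ℤ} (ha : Odd a) (ha0 : 0 < a) (ht : t ∈ TT a) (ht' : t' ∈ TT a)
    (hf : f ∈ FF a) (hf' : f' ∈ FF a) (h : t + f = t' + f') : t = t' := by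
  rcases ht with ht | ht <;> rcases ht' with ht' | ht'
  · exact unique_half ha ha0 ht ht' hf hf' h
  · exact (disjoint_halves ha ha0 ht ht' hf (FF_symm hf') (by linear_combination h)).elim
  · exact (disjoint_halves ha ha0 ht' ht hf' (FF_symm hf) (by linear_combination -h)).elim
  · have := unique_half ha ha0 ht ht' (FF_symm hf) (FF_symm hf') (by linear_combination -h)
    linarith

theorem TT_cover {a n : ℤ} (ha : Odd a) (ha0 : 3 ≤ a) (h1 : 2 * a + 2 ≤ n)
    (h2 : n < a ^ 2 + 4 * a + 2) : ∃ t ∈ TT a, ∃ f ∈ FF a, t + f = n := by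
  -- coordinates
  obtain ⟨y, z, hn, hy0, hya⟩ : ∃ y z, n = a * z + 2 * y ∧ 0 ≤ y ∧ y < a := by
    have hdiv := Int.emod_add_mul_ediv n a
    have hm0 := Int.emod_nonneg n (by omega : a ≠ 0)
    have hma := Int.emod_lt_of_pos n (by omega : 0 < a)
    have ha2 : a % 2 = 1 := Int.odd_iff.mp ha
    rcases Int.emod_two_eq_zero_or_one (n % a) with h | h
    · refine ⟨n % a / 2, n / a, ?_, by omega, by omega⟩
      have : 2 * (n % a / 2) = n % a := by omega
      rw [this]; linarith
    · refine ⟨(n % a + a) / 2, n / a - 1, ?_, by omega, by omega⟩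
      have : 2 * ((n % a + a) / 2) = n % a + a := by omega
      rw [this]; linarith
  have ha2 : a % 2 = 1 := Int.odd_iff.mp ha
  have hz1 : 1 ≤ z := by
    by_contra hc
    push Not at hc
    nlinarith
  have hz2 : z ≤ a + 4 := by
    by_contra hc
    push Not at hc
    nlinarith
  -- the two ways to conclude
  have direct : ∀ y z, 0 ≤ y → y ≤ a → y % 2 ≤ z → z ≤ y + 1 → n = a * z + 2 * y →
      ∃ t ∈ TT a, ∃ f ∈ FF a, t + f = n := by
    intro y z h1 h2 h3 h4 h5
    obtain ⟨t, f, ht, hf, htf⟩ := good ha h1 h2 h3 h4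
    exact ⟨t, Or.inl ht, f, hf, by rw [htf, h5]⟩
  have mirror : ∀ y z, 0 ≤ y → y ≤ a → y % 2 ≤ z → z ≤ y + 1 →
      a * (a + 4) + (2 * a + 2) - n = a * z + 2 * y →
      ∃ t ∈ TT a, ∃ f ∈ FF a, t + f = n := by
    intro y z h1 h2 h3 h4 h5
    obtain ⟨t, f, ht, hf, htf⟩ := good ha h1 h2 h3 h4
    refine ⟨a * (a + 4) - t, Or.inr ?_, 2 * a + 2 - f, FF_symm hf, by linarith⟩
    rwa [sub_sub_cancel]
  by_cases hzy : z ≤ y + 1
  · exact direct y z hy0 hya.le (by omega) hzy hn
  push Not at hzy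
  by_cases hy2 : 2 ≤ y
  · by_cases hza : z ≤ a + 3
    · exact mirror (a + 1 - y) (a + 4 - z) (by omega) (by omega) (by omega) (by omega)
        (by rw [hn]; ring)
    · exfalso
      have : z = a + 4 := by omega
      subst this
      nlinarith
  · rcases (by omega : y = 0 ∨ y = 1) with rfl | rfl
    · have hz3 : 3 ≤ z := by
        by_contra hc
        have : z = 2 := by omega
        subst this
        linarith
      by_cases hza : z ≤ a + 3
      · exact direct a (z - 2) (by omega) le_rfl (by omega) (by omega) (by rw [hn]; ring)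
      · have : z = a + 4 := by omega
        subst this
        exact mirror 1 2 (by omega) (by omega) (by omega) (by omega) (by rw [hn]; ring)
    · by_cases hza : z ≤ a + 3
      · exact mirror a (a + 4 - z) (by omega) le_rfl (by omega) (by omega) (by rw [hn]; ring)
      · exfalso
        have : z = a + 4 := by omega
        subst this
        nlinarith

/-! ### `{0, a, b, a + b}` with `a`, `b` odd does not tile the half line -/

def sg (n : ℤ) : ℤ := if n % 2 = 0 then 1 else -1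

lemma sg_sub {n a : ℤ} (ha : a % 2 = 1) : sg (n - a) = -sg n := by
  unfold sg
  rcases Int.emod_two_eq_zero_or_one n with h | h
  · have h1 : ¬ (n - a) % 2 = 0 := by omega
    rw [if_pos h, if_neg h1]
  · have h1 : (n - a) % 2 = 0 := by omega
    have h2 : ¬ n % 2 = 0 := by omega
    rw [if_neg h2, if_pos h1]; norm_num

lemma sg_sq (n : ℤ) : sg n * sg n = 1 := by
  unfold sg
  split_ifs <;> norm_num

lemma abs_sg (n : ℤ) : |sg n| = 1 := by
  unfold sg
  split_ifs <;> norm_num

theorem no_run {a b : ℕ} (ha : Odd a) (hb : Odd b) (t : ℤ → ℤ) (h01 : ∀ n, t n = 0 ∨ t n = 1)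
    (h : ∀ n : ℤ, 0 ≤ n → t n + t (n - a) + t (n - b) + t (n - a - b) = 1) : False := by
  have ha' : (a : ℤ) % 2 = 1 := by
    obtain ⟨k, rfl⟩ := ha; push_cast; omega
  have hb' : (b : ℤ) % 2 = 1 := by
    obtain ⟨k, rfl⟩ := hb; push_cast; omega
  set τ : ℤ → ℤ := fun n => sg n * t n with hτ
  set θ : ℤ → ℤ := fun n => ∑ j ∈ Finset.range b, ∑ i ∈ Finset.range a, τ (n - i - j) with hθ
  set D : ℤ → ℤ := fun n => ∑ j ∈ Finset.range b, (τ (n - j) - τ (n - a - j)) with hD
  have hτ1 : ∀ n, |τ n| ≤ 1 := by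
    intro n
    rw [hτ]
    simp only [abs_mul, abs_sg, one_mul]
    rcases h01 n with h | h <;> rw [h] <;> norm_num
  have hbound : ∀ n, |θ n| ≤ a * b := by
    intro n
    calc |θ n| ≤ ∑ j ∈ Finset.range b, |∑ i ∈ Finset.range a, τ (n - i - j)| :=
          Finset.abs_sum_le_sum_abs _ _
      _ ≤ ∑ j ∈ Finset.range b, ∑ i ∈ Finset.range a, |τ (n - i - j)| :=
          Finset.sum_le_sum fun j _ => Finset.abs_sum_le_sum_abs _ _
      _ ≤ ∑ j ∈ Finset.range b, ∑ i ∈ Finset.range a, 1 :=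
          Finset.sum_le_sum fun j _ => Finset.sum_le_sum fun i _ => hτ1 _
      _ = a * b := by simp; ring
  have htel : ∀ (c : ℕ) (k : ℤ → ℤ) (n : ℤ), ∑ i ∈ Finset.range c, k (n - i) -
      ∑ i ∈ Finset.range c, k (n - 1 - i) = k n - k (n - c) := by
    intro c k n
    induction c with
    | zero => simp
    | succ c ih =>
      rw [Finset.sum_range_succ, Finset.sum_range_succ]
      have e : n - 1 - (c : ℤ) = n - ((c + 1 : ℕ) : ℤ) := by push_cast; ring
      rw [e]
      linarith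
  have hθD : ∀ n, θ n - θ (n - 1) = D n := by
    intro n
    rw [hθ, hD]
    simp only
    rw [← Finset.sum_sub_distrib]
    refine Finset.sum_congr rfl fun j _ => ?_
    have := htel a (fun x => τ (x - j)) n
    rw [← this]
  have hDg : ∀ n, 0 ≤ n → D n - D (n - 1) = sg n := by
    intro n hn
    have h1 := htel b (fun x => τ x - τ (x - a)) n
    have h2 : D n = ∑ i ∈ Finset.range b, (τ (n - i) - τ (n - i - a)) := by
      rw [hD]
      refine Finset.sum_congr rfl fun i _ => ?_
      have e : n - (a : ℤ) - i = n - i - a := by ring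
      rw [e]
    have h3 : D (n - 1) = ∑ i ∈ Finset.range b, (τ (n - 1 - i) - τ (n - 1 - i - a)) := by
      rw [hD]
      refine Finset.sum_congr rfl fun i _ => ?_
      have e : n - 1 - (a : ℤ) - i = n - 1 - i - a := by ring
      rw [e]
    rw [h2, h3, h1, hτ]
    simp only
    have e1 : sg (n - a) = -sg n := sg_sub ha'
    have e2 : sg (n - b) = -sg n := sg_sub hb'
    have e3 : sg (n - b - a) = sg n := by rw [sg_sub ha', e2, neg_neg]
    have e4 : n - (b : ℤ) - a = n - a - b := by ring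
    rw [e1, e2, e3, e4]
    have := h n hn
    linear_combination sg n * this
  -- `D` on the half line
  have hDn : ∀ n : ℕ, D n = D (-1) + if n % 2 = 0 then 1 else 0 := by
    intro n
    induction n with
    | zero =>
      have := hDg 0 le_rfl
      simp only [zero_sub] at this
      have e : sg 0 = 1 := by unfold sg; norm_num
      rw [e] at this
      simp
      linarith
    | succ n ih =>
      have := hDg ((n + 1 : ℕ) : ℤ) (by positivity)
      have e1 : ((n + 1 : ℕ) : ℤ) - 1 = n := by push_cast; ring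
      rw [e1, ih] at this
      have e2 : sg ((n + 1 : ℕ) : ℤ) = if (n + 1) % 2 = 0 then 1 else -1 := by
        unfold sg
        by_cases hc : (n + 1) % 2 = 0
        · rw [if_pos hc, if_pos (by omega)]
        · rw [if_neg hc, if_neg (by omega)]
      rw [e2] at this
      rcases Nat.mod_two_eq_zero_or_one n with hc | hc
      · rw [if_pos hc, if_neg (by omega)] at this
        rw [if_neg (by omega)]
        linarith
      · rw [if_neg (by omega), if_pos (by omega)] at this
        rw [if_pos (by omega)]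
        linarith
  have hgrow : ∀ N : ℕ, θ (2 * N - 1) - θ (-1) = N * (2 * D (-1) + 1) := by
    intro N
    induction N with
    | zero => simp
    | succ N ih =>
      have h1 := hθD ((2 * N + 1 : ℕ) : ℤ)
      have h2 := hθD ((2 * N : ℕ) : ℤ)
      rw [hDn, if_neg (by omega)] at h1
      rw [hDn, if_pos (by omega)] at h2
      have e1 : ((2 * N + 1 : ℕ) : ℤ) = 2 * ((N + 1 : ℕ) : ℤ) - 1 := by push_cast; ring
      have e2 : ((2 * N + 1 : ℕ) : ℤ) - 1 = ((2 * N : ℕ) : ℤ) := by push_cast; ring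
      have e3 : ((2 * N : ℕ) : ℤ) - 1 = 2 * (N : ℤ) - 1 := by push_cast; ring
      rw [e2, e1] at h1
      rw [e3] at h2
      push_cast at h1 h2 ⊢
      linarith
  have h1 := hgrow (2 * a * b + 1)
  have h2 := hbound (2 * ((2 * a * b + 1 : ℕ) : ℤ) - 1)
  have h3 := hbound (-1)
  rw [abs_le] at h2 h3
  have h4 : |(((2 * a * b + 1 : ℕ) : ℤ) * (2 * D (-1) + 1))| ≤ 2 * a * b := by
    rw [← h1, abs_le]
    constructor <;> linarith [h2.1, h2.2, h3.1, h3.2]
  have h5 : 1 ≤ |2 * D (-1) + 1| := by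
    apply Int.one_le_abs
    omega
  rw [abs_mul, abs_of_nonneg (by positivity : (0 : ℤ) ≤ ((2 * a * b + 1 : ℕ) : ℤ))] at h4
  have h6 : ((2 * a * b + 1 : ℕ) : ℤ) * 1 ≤ ((2 * a * b + 1 : ℕ) : ℤ) * |2 * D (-1) + 1| :=
    mul_le_mul_of_nonneg_left h5 (by positivity)
  push_cast at h4 h6
  linarith

end Pool.Agent.H58.HeeschC
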