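import Mathlib
import Pool.Agent.H58.HeeschC.Body
import Pool.Agent.H58.HeeschC.OneDim

set_option autoImplicit false

namespace Pool.Agent.H58.HeeschC

open Metric Set Pool.Agent.H58.Heesch

variable {m : ℕ}

lemma joined_of {S : Set (V m)} {p q : V m}
    (h : ∀ s : ℝ, 0 ≤ s → s ≤ 1 → (1 - s) • p + s • q ∈ S) : JoinedIn S p q := by
  refine JoinedIn.of_segment_subset ?_
  rintro x ⟨a, b, ha, hb, hab, rfl⟩
  have : a = 1 - b := by linarith
  subst this
  exact h b hb (by linarith)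

lemma both_lt {a x y s : ℝ} (h1 : a < x) (h2 : a < y) (hs : 0 ≤ s) (hs1 : s ≤ 1) :
    a < (1 - s) * x + s * y := by
  rcases eq_or_lt_of_le hs with h | h
  · rw [← h]; linarith
  · exact strict_lt h1.le h2 h hs1

lemma both_gt {a x y s : ℝ} (h1 : x < a) (h2 : y < a) (hs : 0 ≤ s) (hs1 : s ≤ 1) :
    (1 - s) * x + s * y < a := by
  rcases eq_or_lt_of_le hs with h | h
  · rw [← h]; linarith
  · exact strict_gt h1.le h2 h hs1

/-- a box inside the tile -/
def Bx (f : ℝ) : Set (V m) :=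
  {p | f < p 0 ∧ p 0 < f + 31 / 32 ∧ (∀ i, i ≠ 0 → 0 < p i ∧ p i < 1) ∧ 1 / 2 < p 2}

lemma isOpen_Bx (f : ℝ) : IsOpen (Bx f : Set (V m)) :=
  (isOpen_lt continuous_const (continuous_coord 0)).inter
    ((isOpen_lt (continuous_coord 0) continuous_const).inter
      (isOpen_obox.inter (isOpen_lt continuous_const (continuous_coord 2))))

lemma Bx_sub {F : Set ℤ} {c r : ℝ} {f : ℤ} (hf : f ∈ F) :
    (Bx f : Set (V m)) ⊆ interior (BB F c r) := by
  refine interior_maximal ?_ (isOpen_Bx _)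
  rintro p ⟨h1, h2, h3, h4⟩
  rcases le_total (rad p) r with h | h
  · exact ⟨f, hf, Or.inr (Or.inl ⟨by linarith, h2.le, h⟩)⟩
  · exact ⟨f, hf, Or.inl ⟨h1.le, by linarith, fun i hi => ⟨(h3 i hi).1.le, (h3 i hi).2.le⟩, h4.le, h⟩⟩

/-- the bridge between the plate `f'` and the lane `f` -/
def Br (c f' f : ℝ) : Set (V m) :=
  {p | f' < p 0 ∧ p 0 < f' + 1 ∧ f < p 0 - c * p 1 ∧ p 0 - c * p 1 < f + 1 ∧
    (∀ i, i ≠ 0 → 0 < p i ∧ p i < 1) ∧ 3 / 8 < p 2 ∧ p 2 < 5 / 8}

lemma isOpen_Br (c f' f : ℝ) : IsOpen (Br c f' f : Set (V m)) :=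
  (isOpen_lt continuous_const (continuous_coord 0)).inter
    ((isOpen_lt (continuous_coord 0) continuous_const).inter
      ((isOpen_lt continuous_const (cont_shear c)).inter
        ((isOpen_lt (cont_shear c) continuous_const).inter
          (isOpen_obox.inter ((isOpen_lt continuous_const (continuous_coord 2)).inter
            (isOpen_lt (continuous_coord 2) continuous_const))))))

lemma Br_sub {F : Set ℤ} {c r : ℝ} (hr : r ≤ 1 / 16) {f' f : ℤ} (hf' : f' ∈ F) (hf : f ∈ F) :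
    (Br c f' f : Set (V m)) ⊆ interior (BB F c r) := by
  refine interior_maximal ?_ (isOpen_Br _ _ _)
  rintro p ⟨h1, h2, h3, h4, h5, h6, h7⟩
  rcases le_total (p 2) (1 / 2) with h | h
  · exact ⟨f, hf, Or.inr (Or.inr ⟨h3.le, h4.le, fun i hi => ⟨(h5 i hi).1.le, (h5 i hi).2.le⟩, h⟩)⟩
  · refine ⟨f', hf', Or.inl ⟨h1.le, h2.le, fun i hi => ⟨(h5 i hi).1.le, (h5 i hi).2.le⟩, h, ?_⟩⟩
    have h8 := coord_rad p (i := 2) two_ne
    rw [cc_two, abs_le] at h8
    linarith [h8.1]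

/-- moving in the direction `0` -/
lemma slide_apply (p : V m) (x s : ℝ) {i : Fin (m + 1 + 2)} (hi : i ≠ 0) :
    ((1 - s) • p + s • (p + (x - p 0) • ee m)) i = p i := by
  rw [comb_apply, PiLp.add_apply, PiLp.smul_apply, ee_ne hi]
  simp only [smul_eq_mul, mul_zero, add_zero]
  ring

lemma slide_zero (p : V m) (x : ℝ) : (p + (x - p 0) • ee m) 0 = x := by
  rw [PiLp.add_apply, PiLp.smul_apply, ee_zero]
  simp

lemma N_slide (p : V m) (x s : ℝ) : N ((1 - s) • p + s • (p + (x - p 0) • ee m)) = N p := by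
  ext i
  by_cases hi : i = 0
  · rw [hi, N_zero, N_zero]
  · rw [N_ne _ hi, N_ne _ hi, slide_apply p x s hi]

lemma joined_O1 {F : Set ℤ} {c r : ℝ} {f : ℤ} (hf : f ∈ F) {p : V m}
    (hp : p ∈ O1 r (f : ℝ)) :
    JoinedIn (interior (BB F c r)) p (ax ((f : ℝ) + 1 / 2)) := by
  obtain ⟨h1, h2, h3, h4, h5⟩ := hp
  have hj1 : JoinedIn (interior (BB F c r)) p (p + (((f : ℝ) + 1 / 2) - p 0) • ee m) := by
    refine joined_of fun s hs hs1 => B0_sub_interior F c r ⟨f, hf, Or.inl ⟨?_, ?_, ?_, ?_, ?_⟩⟩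
    · rw [comb_apply, slide_zero]
      exact both_lt h1 (by linarith) hs hs1
    · rw [comb_apply, slide_zero]
      exact both_gt h2 (by linarith) hs hs1
    · intro i hi
      rw [slide_apply _ _ _ hi]
      exact h3 i hi
    · rw [slide_apply _ _ _ two_ne]
      exact h4
    · unfold rad
      rw [N_slide]
      exact h5
  refine hj1.trans (joined_of fun s hs hs1 => Bx_sub hf ⟨?_, ?_, ?_, ?_⟩)
  · rw [comb_apply, slide_zero, ax_zero]
    exact both_lt (by linarith) (by linarith) hs hs1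
  · rw [comb_apply, slide_zero, ax_zero]
    exact both_gt (by linarith) (by linarith) hs hs1
  · intro i hi
    have h6 := cc_bd (m := m) hi
    have h7 : (p + (((f : ℝ) + 1 / 2) - p 0) • ee m) i = p i := by
      rw [PiLp.add_apply, PiLp.smul_apply, ee_ne hi]; simp
    rw [comb_apply, h7, ax_ne _ hi]
    exact ⟨both_lt (h3 i hi).1 (by linarith [h6.1]) hs hs1,
      both_gt (h3 i hi).2 (by linarith [h6.2]) hs hs1⟩
  · have h7 : (p + (((f : ℝ) + 1 / 2) - p 0) • ee m) 2 = p 2 := by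
      rw [PiLp.add_apply, PiLp.smul_apply, ee_ne two_ne]; simp
    rw [comb_apply, h7, ax_ne _ two_ne, cc_two]
    exact both_lt h4 (by norm_num) hs hs1

lemma joined_O2 {F : Set ℤ} {c r : ℝ} {f : ℤ} (hf : f ∈ F) {p : V m}
    (hp : p ∈ O2 r (f : ℝ)) :
    JoinedIn (interior (BB F c r)) p (ax ((f : ℝ) + 1 / 2)) := by
  obtain ⟨h1, h2, h3⟩ := hp
  refine joined_of fun s hs hs1 => B0_sub_interior F c r ⟨f, hf, Or.inr (Or.inl ⟨?_, ?_, ?_⟩)⟩
  · rw [comb_apply, ax_zero]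
    exact both_lt h1 (by linarith) hs hs1
  · rw [comb_apply, ax_zero]
    exact both_gt h2 (by linarith) hs hs1
  · rw [rad_comb_ax _ _ _ hs1]
    have := rad_nonneg p
    nlinarith

lemma joined_O3 {F : Set ℤ} {c r : ℝ} {f : ℤ} (hf : f ∈ F) {p : V m}
    (hp : p ∈ O3 c (f : ℝ)) :
    JoinedIn (interior (BB F c r)) p (qL m c f) := by
  obtain ⟨h1, h2, h3, h4⟩ := hp
  refine joined_of fun s hs hs1 => B0_sub_interior F c r ⟨f, hf, Or.inr (Or.inr ⟨?_, ?_, ?_, ?_⟩)⟩
  · rw [comb_shear, qL_shear]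
    exact both_lt h1 (by linarith) hs hs1
  · rw [comb_shear, qL_shear]
    exact both_gt h2 (by linarith) hs hs1
  · intro i hi
    have h6 := qL_bd (m := m) c f i hi
    rw [comb_apply]
    exact ⟨both_lt (h3 i hi).1 (by linarith [h6.1]) hs hs1,
      both_gt (h3 i hi).2 (by linarith [h6.2]) hs hs1⟩
  · rw [comb_apply]
    refine both_gt h4 ?_ hs hs1
    unfold qL
    rw [pt_two]; norm_num

lemma joined_bridge {F : Set ℤ} {c r : ℝ} (hc : 0 < c) (hr : r ≤ 1 / 16) {f' f : ℤ}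
    (hf' : f' ∈ F) (hf : f ∈ F) (h0 : f ≤ f') (h1 : (f' : ℝ) - f + 1 / 2 < c) :
    JoinedIn (interior (BB F c r)) (ax ((f' : ℝ) + 1 / 2) : V m) (qL m c f) := by
  have h0' : (f : ℝ) ≤ f' := by exact_mod_cast h0
  set y : ℝ := ((f' : ℝ) - f + 1 / 2) / c with hy
  have hy0 : 0 < y := div_pos (by linarith) hc
  have hy1 : y < 1 := (div_lt_one hc).mpr h1
  have hcy : c * y = (f' : ℝ) - f + 1 / 2 := by rw [hy]; field_simp
  have hbd : ∀ z : ℝ, 0 < z ∧ z < 1 → ∀ i, i ≠ 0 → 0 < pt m ((f' : ℝ) + 3 / 4) y z i ∧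
      pt m ((f' : ℝ) + 3 / 4) y z i < 1 := fun z hz => pt_bd ⟨hy0, hy1⟩ hz
  have ha : pt m ((f' : ℝ) + 3 / 4) y (9 / 16) ∈ O1 r (f' : ℝ) := by
    refine ⟨?_, ?_, hbd _ (by norm_num), ?_, ?_⟩
    · rw [pt_zero]; linarith
    · rw [pt_zero]; linarith
    · rw [pt_two]; norm_num
    · have h8 := coord_rad (pt m ((f' : ℝ) + 3 / 4) y (9 / 16)) (i := 2) two_ne
      rw [cc_two, pt_two, abs_le] at h8
      linarith [h8.1]
  have hb : pt m ((f' : ℝ) + 3 / 4) y (7 / 16) ∈ O3 c (f : ℝ) := by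
    refine ⟨?_, ?_, hbd _ (by norm_num), ?_⟩
    · rw [pt_zero, pt_one, hcy]; linarith
    · rw [pt_zero, pt_one, hcy]; linarith
    · rw [pt_two]; norm_num
  have hj : JoinedIn (interior (BB F c r)) (pt m ((f' : ℝ) + 3 / 4) y (9 / 16))
      (pt m ((f' : ℝ) + 3 / 4) y (7 / 16)) := by
    refine joined_of fun s hs hs1 => Br_sub hr hf' hf ⟨?_, ?_, ?_, ?_, ?_, ?_, ?_⟩
    · rw [comb_apply, pt_zero, pt_zero]
      exact both_lt (by linarith) (by linarith) hs hs1
    · rw [comb_apply, pt_zero, pt_zero]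
      exact both_gt (by linarith) (by linarith) hs hs1
    · rw [comb_shear, pt_zero, pt_zero, pt_one, pt_one, hcy]
      exact both_lt (by linarith) (by linarith) hs hs1
    · rw [comb_shear, pt_zero, pt_zero, pt_one, pt_one, hcy]
      exact both_gt (by linarith) (by linarith) hs hs1
    · intro i hi
      have h6 := hbd (9 / 16) (by norm_num) i hi
      have h7 := hbd (7 / 16) (by norm_num) i hi
      rw [comb_apply]
      exact ⟨both_lt h6.1 h7.1 hs hs1, both_gt h6.2 h7.2 hs hs1⟩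
    · rw [comb_apply, pt_two, pt_two]
      exact both_lt (by norm_num) (by norm_num) hs hs1
    · rw [comb_apply, pt_two, pt_two]
      exact both_gt (by norm_num) (by norm_num) hs hs1
  exact ((joined_O1 hf' ha).symm.trans hj).trans (joined_O3 hf hb)

/-- every interior point is joined to a point of the dense part -/
lemma joined_dense {F : Set ℤ} {c r : ℝ} (hr0 : 0 < r) (hr : r ≤ 1 / 16) {p : V m}
    (hp : p ∈ interior (BB F c r)) : ∃ q ∈ (B0 F c r : Set (V m)), JoinedIn (interior (BB F c r)) p q := by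
  obtain ⟨ε, hε, hb⟩ := Metric.isOpen_iff.mp isOpen_interior p hp
  have hcl : p ∈ closure (B0 F c r : Set (V m)) := BB_sub_closure hr0 hr (interior_subset hp)
  obtain ⟨q, hq1, hq2⟩ := Metric.mem_closure_iff.mp hcl ε hε
  refine ⟨q, hq1, JoinedIn.of_segment_subset ?_⟩
  refine ((convex_ball p ε).segment_subset (mem_ball_self hε) ?_).trans hb
  rw [mem_ball, dist_comm]
  exact hq2

theorem isConnected_interior_BB {a : ℤ} (ha : 0 < a) {c r : ℝ} (hc : c = (a : ℝ) + 3) (hr0 : 0 < r)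
    (hr : r ≤ 1 / 16) : IsConnected (interior (BB (FF a) c r : Set (V m))) := by
  have ha' : (0 : ℝ) < a := by exact_mod_cast ha
  have hc0 : 0 < c := by rw [hc]; linarith
  have m0 : (0 : ℤ) ∈ FF a := mem_FF.mpr (by simp)
  have m1 : a ∈ FF a := mem_FF.mpr (by simp)
  have m2 : a + 2 ∈ FF a := mem_FF.mpr (by simp)
  have m3 : 2 * a + 2 ∈ FF a := mem_FF.mpr (by simp)
  -- plates and lanes are joined to the lane `0`
  have hself : ∀ f ∈ FF a, JoinedIn (interior (BB (FF a) c r)) (ax ((f : ℝ) + 1 / 2) : V m)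
      (qL m c f) := fun f hf => joined_bridge hc0 hr hf hf le_rfl (by rw [sub_self, hc]; linarith)
  have j1 : JoinedIn (interior (BB (FF a) c r)) (ax ((a : ℝ) + 1 / 2) : V m) (qL m c ((0 : ℤ) : ℝ)) :=
    joined_bridge hc0 hr m1 m0 ha.le (by rw [hc]; push_cast; linarith)
  have j2 : JoinedIn (interior (BB (FF a) c r)) (ax (((a + 2 : ℤ) : ℝ) + 1 / 2) : V m)
      (qL m c ((0 : ℤ) : ℝ)) :=
    joined_bridge hc0 hr m2 m0 (by omega) (by rw [hc]; push_cast; linarith)
  have j3 : JoinedIn (interior (BB (FF a) c r)) (ax (((2 * a + 2 : ℤ) : ℝ) + 1 / 2) : V m)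
      (qL m c (a : ℝ)) :=
    joined_bridge hc0 hr m3 m1 (by omega) (by rw [hc]; push_cast; linarith)
  have hplate : ∀ f ∈ FF a, JoinedIn (interior (BB (FF a) c r)) (ax ((f : ℝ) + 1 / 2) : V m)
      (qL m c ((0 : ℤ) : ℝ)) := by
    intro f hf
    rcases mem_FF.mp hf with rfl | rfl | rfl | rfl
    · exact hself 0 m0
    · exact j1
    · exact j2
    · exact (j3.trans (hself a m1).symm).trans j1
  have hall : ∀ p ∈ interior (BB (FF a) c r : Set (V m)),
      JoinedIn (interior (BB (FF a) c r)) p (qL m c ((0 : ℤ) : ℝ)) := by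
    intro p hp
    obtain ⟨q, ⟨f, hf, h | h | h⟩, hj⟩ := joined_dense hr0 hr hp
    · exact hj.trans ((joined_O1 hf h).trans (hplate f hf))
    · exact hj.trans ((joined_O2 hf h).trans (hplate f hf))
    · exact hj.trans ((joined_O3 hf h).trans ((hself f hf).symm.trans (hplate f hf)))
  have hpath : IsPathConnected (interior (BB (FF a) c r : Set (V m))) :=
    ⟨qL m c ((0 : ℤ) : ℝ), (hself 0 m0).mem.2, fun {p} hp => (hall p hp).symm⟩
  exact hpath.isConnected

end Pool.Agent.H58.HeeschC
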