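import Mathlib
import Pool.Agent.H58.HeeschC.Conn

set_option autoImplicit false

namespace Pool.Agent.H58.HeeschC

open Metric Set Pool.Agent.H58.Heesch

variable {m : ℕ}

/-- the linear part of an isometry -/
noncomputable abbrev lin (h : V m ≃ᵢ V m) : V m ≃ₗᵢ[ℝ] V m := h.toRealLinearIsometryEquiv

lemma iso_add (h : V m ≃ᵢ V m) (x y : V m) : h (x + y) = h x + lin h y := by
  rw [IsometryEquiv.toRealLinearIsometryEquiv_apply]
  have hLa : ∀ x, h x = h.toRealLinearIsometryEquiv x + h 0 := by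
    intro x
    rw [IsometryEquiv.toRealLinearIsometryEquiv_apply]
    abel
  rw [hLa (x + y), hLa x, map_add, hLa y]
  abel

lemma iso_sub (h : V m ≃ᵢ V m) (x y : V m) : h x - h y = lin h (x - y) := by
  have := iso_add h y (x - y)
  rw [add_sub_cancel] at this
  rw [this]; abel

lemma image_interior_iso (h : V m ≃ᵢ V m) (A : Set (V m)) :
    interior (h '' A) = h '' interior A := by
  have := h.toHomeomorph.image_interior A
  exact this.symm

/-- `p` is a tip of a thick cone in `A` -/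
def Thick (A : Set (V m)) (ρ d : ℝ) (p : V m) : Prop :=
  ∃ q : V m, ‖q - p‖ ≤ d ∧ ∀ v : V m, ‖v‖ ≤ ρ → ∀ s : ℝ, 0 ≤ s → s ≤ 1 →
    (1 - s) • p + s • (q + v) ∈ A

/-- the numerical assumptions on the parameters -/
structure Par (m : ℕ) (c r ρ d : ℝ) : Prop where
  c0 : 0 ≤ c
  r0 : 0 < r
  r1 : r ≤ 1 / 1024
  ρ0 : 0 < ρ
  ρ1 : (1 + c) * ρ ≤ 1 / 16
  d0 : c + m + 4 ≤ d
  rd : 512 * r * d ≤ ρ

lemma Par.ρ2 {c r ρ d : ℝ} (P : Par m c r ρ d) : ρ ≤ 1 / 16 := by
  have h1 := P.ρ1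
  have h2 := mul_nonneg P.c0 P.ρ0.le
  linarith

lemma Par.d1 {c r ρ d : ℝ} (P : Par m c r ρ d) : 4 ≤ d := by
  have h1 := P.d0
  have h2 := P.c0
  have h3 : (0 : ℝ) ≤ m := by positivity
  linarith

lemma thick_or_pin {F : Set ℤ} {c r ρ d : ℝ} (P : Par m c r ρ d) {p : V m} (hp : p ∈ BB F c r) :
    Thick (BB F c r) ρ d p ∨ ∃ f ∈ F, (f : ℝ) - 1 / 32 ≤ p 0 ∧ p 0 < f ∧ rad p ≤ r := by
  have hc := P.c0
  have hr1 := P.r1
  have hρ2 := P.ρ2
  have hd := P.d0
  have hm0 : (0 : ℝ) ≤ m := by positivity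
  obtain ⟨f, hf, h | h | h⟩ := hp
  · left
    refine ⟨qP f p, ?_, fun v hv s hs hs1 => ⟨f, hf, Or.inl
      (cone_P1 P.r0 (by linarith) h (hv.trans hρ2) hs hs1)⟩⟩
    obtain ⟨h1, h2, h3, h4, h5⟩ := h
    have hrad : 0 < rad p := lt_of_lt_of_le P.r0 h5
    have h6 : ‖qP f p - p‖ ≤ |(qP f p - p) 0| + (m + 2) * 1 := by
      refine norm_le_coords fun i hi => ?_
      have h7 := abs_le.mp (qP_ne (f : ℝ) hrad hi)
      have h8 := cc_bd (m := m) hi
      have h9 := h3 i hi
      rw [PiLp.sub_apply, abs_le]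
      constructor <;> linarith [h7.1, h7.2, h8.1, h8.2, h9.1, h9.2]
    have h7 : |(qP (f : ℝ) p - p) 0| ≤ 1 := by
      rw [PiLp.sub_apply, qP_zero, abs_le]
      constructor <;> linarith
    linarith
  · obtain ⟨h1, h2, h3⟩ := h
    rcases lt_or_ge (p 0) f with h4 | h4
    · right
      exact ⟨f, hf, h1, h4, h3⟩
    left
    have hpi : ∀ i, i ≠ 0 → 0 ≤ p i ∧ p i ≤ 1 := by
      intro i hi
      have h5 := abs_le.mp (coord_rad p hi)
      have h6 := cc_bd (m := m) hi
      constructor <;> linarith [h5.1, h5.2, h6.1, h6.2]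
    have hp2 : 1 / 2 ≤ p 2 := by
      have h5 := abs_le.mp (coord_rad p (i := 2) two_ne)
      rw [cc_two] at h5
      linarith [h5.1]
    refine ⟨ax (f + 1 / 2), ?_, fun v hv s hs hs1 => ?_⟩
    · have h6 : ‖ax ((f : ℝ) + 1 / 2) - p‖ ≤ |(ax ((f : ℝ) + 1 / 2) - p : V m) 0| + (m + 2) * 1 := by
        refine norm_le_coords fun i hi => ?_
        have h8 := cc_bd (m := m) hi
        have h9 := hpi i hi
        rw [PiLp.sub_apply, ax_ne _ hi, abs_le]
        constructor <;> linarith [h8.1, h8.2, h9.1, h9.2]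
      have h7 : |(ax ((f : ℝ) + 1 / 2) - p : V m) 0| ≤ 1 := by
        rw [PiLp.sub_apply, ax_zero, abs_le]
        constructor <;> linarith
      linarith
    · have hvi : ∀ i, |v i| ≤ 1 / 16 := fun i => (abs_coord_le v i).trans (hv.trans hρ2)
      set y := (1 - s) • p + s • (ax ((f : ℝ) + 1 / 2) + v) with hy
      have hv0 := abs_le.mp (hvi 0)
      have y0 : (f : ℝ) ≤ y 0 ∧ y 0 ≤ f + 31 / 32 := by
        rw [hy, comb_apply, PiLp.add_apply, ax_zero]
        exact ⟨weak_le h4 (by linarith [hv0.1]) hs hs1, weak_ge h2 (by linarith [hv0.2]) hs hs1⟩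
      have yi : ∀ i, i ≠ 0 → 0 ≤ y i ∧ y i ≤ 1 := by
        intro i hi
        have h5 := abs_le.mp (hvi i)
        have h6 := cc_bd (m := m) hi
        rw [hy, comb_apply, PiLp.add_apply, ax_ne _ hi]
        exact ⟨weak_le (hpi i hi).1 (by linarith [h5.1, h6.1]) hs hs1,
          weak_ge (hpi i hi).2 (by linarith [h5.2, h6.2]) hs hs1⟩
      have y2 : 1 / 2 ≤ y 2 := by
        have h5 := abs_le.mp (hvi 2)
        rw [hy, comb_apply, PiLp.add_apply, ax_ne _ two_ne, cc_two]
        exact weak_le hp2 (by linarith [h5.1]) hs hs1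
      rcases le_total (rad y) r with h7 | h7
      · exact ⟨f, hf, Or.inr (Or.inl ⟨by linarith [y0.1], y0.2, h7⟩)⟩
      · exact ⟨f, hf, Or.inl ⟨y0.1, by linarith [y0.2], yi, y2, h7⟩⟩
  · left
    obtain ⟨h1, h2, h3, h4⟩ := h
    have h5 := h3 1 one_ne
    have hcp1 : 0 ≤ c * p 1 := mul_nonneg hc h5.1
    have hcp2 : c * p 1 ≤ c := by nlinarith [h5.2]
    refine ⟨qL m c f, ?_, fun v hv s hs hs1 => ⟨f, hf, Or.inr (Or.inr ⟨?_, ?_, ?_, ?_⟩)⟩⟩
    · have h6 : ‖qL m c f - p‖ ≤ |(qL m c f - p) 0| + (m + 2) * 1 := by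
        refine norm_le_coords fun i hi => ?_
        have h8 := qL_bd (m := m) c f i hi
        have h9 := h3 i hi
        rw [PiLp.sub_apply, abs_le]
        constructor <;> linarith [h8.1, h8.2, h9.1, h9.2]
      have h7 : |(qL m c f - p) 0| ≤ c + 1 := by
        have : qL m c f 0 = f + 1 / 2 + c / 2 := by unfold qL; rw [pt_zero]
        rw [PiLp.sub_apply, this, abs_le]
        constructor <;> linarith
      linarith
    · have hv0 := abs_le.mp ((abs_coord_le v 0).trans hv)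
      have hv1 := abs_le.mp ((abs_coord_le v 1).trans hv)
      rw [comb_shear, PiLp.add_apply, PiLp.add_apply]
      refine weak_le h1 ?_ hs hs1
      have h8 := qL_shear (m := m) c f
      have h9 : c * v 1 ≤ c * ρ := mul_le_mul_of_nonneg_left hv1.2 hc
      have h10 := P.ρ1
      linarith [hv0.1]
    · have hv0 := abs_le.mp ((abs_coord_le v 0).trans hv)
      have hv1 := abs_le.mp ((abs_coord_le v 1).trans hv)
      rw [comb_shear, PiLp.add_apply, PiLp.add_apply]
      refine weak_ge h2 ?_ hs hs1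
      have h8 := qL_shear (m := m) c f
      have h9 : c * -ρ ≤ c * v 1 := mul_le_mul_of_nonneg_left hv1.1 hc
      have h10 := P.ρ1
      linarith [hv0.2]
    · intro i hi
      have hvi := abs_le.mp ((abs_coord_le v i).trans (hv.trans hρ2))
      have h8 := qL_bd (m := m) c f i hi
      rw [comb_apply, PiLp.add_apply]
      exact ⟨weak_le (h3 i hi).1 (by linarith [h8.1, hvi.1]) hs hs1,
        weak_ge (h3 i hi).2 (by linarith [h8.2, hvi.2]) hs hs1⟩
    · have hvi := abs_le.mp ((abs_coord_le v 2).trans (hv.trans hρ2))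
      rw [comb_apply, PiLp.add_apply]
      refine weak_ge h4 ?_ hs hs1
      unfold qL
      rw [pt_two]
      linarith [hvi.2]

/-- the bottom part of a pit -/
def D (r f : ℝ) : Set (V m) := {x | f + 31 / 32 < x 0 ∧ x 0 < f + 31 / 32 + 3 * r ∧ rad x < r}

/-- the wall of a pit is in the interior -/
lemma wall_sub {F : Set ℤ} {c r : ℝ} {f : ℤ} (hf : f ∈ F) {x : V m} (h1 : (f : ℝ) < x 0)
    (h2 : x 0 < f + 1) (h3 : r < rad x) (h4 : rad x < 1 / 4) : x ∈ interior (BB F c r) := by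
  refine B0_sub_interior F c r ⟨f, hf, Or.inl ⟨h1, h2, fun i hi => ?_, ?_, h3⟩⟩
  · have h5 := abs_le.mp (coord_rad x hi)
    have h6 := cc_bd (m := m) hi
    constructor <;> linarith [h5.1, h5.2, h6.1, h6.2]
  · have h5 := abs_le.mp (coord_rad x (i := 2) two_ne)
    rw [cc_two] at h5
    linarith [h5.1]

/-- the pit is not in the tile -/
lemma pit_disj {F : Set ℤ} (hF : ∀ f ∈ F, f + 1 ∉ F) {c r : ℝ} (hr1 : r ≤ 1 / 1024) {f : ℤ}
    (hf : f ∈ F) {x : V m} (hx : x ∈ (D r f : Set (V m))) : x ∉ (BB F c r : Set (V m)) := by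
  obtain ⟨h1, h2, h3⟩ := hx
  rintro ⟨g, hg, h | h | h⟩
  · exact absurd h3 (not_lt.mpr h.2.2.2.2)
  · obtain ⟨h4, h5, h6⟩ := h
    have h7 : (f : ℝ) < g := by linarith
    have h8 : (g : ℝ) < f + 2 := by linarith
    have h9 : f < g := by exact_mod_cast h7
    have h10 : g < f + 2 := by exact_mod_cast h8
    have h11 : g = f + 1 := by omega
    rw [h11] at hg
    exact hF f hf hg
  · have h5 := abs_le.mp (coord_rad x (i := 2) two_ne)
    rw [cc_two] at h5
    linarith [h.2.2.2, h5.1]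

lemma N_add_of {p v : V m} (hv : v 0 = 0) : N (p + v) = N p + v := by
  rw [N_add]
  unfold pp
  rw [hv, zero_smul, sub_zero]

lemma e1_zero' : (e1 (m + 1)) 0 = 0 := e1_zero

/-- one of the two points `y ± t e₁` has distance at least `t` from the axis -/
lemma far_point (y : V m) {t : ℝ} (ht : 0 ≤ t) :
    t ≤ rad (y + t • e1 (m + 1)) ∨ t ≤ rad (y + (-t) • e1 (m + 1)) := by
  by_contra hcon
  push Not at hcon
  obtain ⟨h1, h2⟩ := hcon
  unfold rad at h1 h2
  rw [N_add_of (by rw [PiLp.smul_apply, e1_zero', smul_zero])] at h1 h2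
  have h3 := parallelogram_law_with_norm ℝ (N y) (t • e1 (m + 1))
  rw [sub_eq_add_neg, ← neg_smul, norm_smul t, norm_e1, mul_one, Real.norm_eq_abs, abs_of_nonneg ht] at h3
  nlinarith [norm_nonneg (N y + t • e1 (m + 1)), norm_nonneg (N y + (-t) • e1 (m + 1)),
    mul_self_nonneg ‖N y‖]

theorem not_thick {F : Set ℤ} {c r ρ d : ℝ} (P : Par m c r ρ d) {h : V m ≃ᵢ V m}
    (hdis : Disjoint (interior (BB F c r)) (interior (h '' BB F c r))) {f : ℤ} (hf : f ∈ F) {p : V m}
    (hp : Thick (BB F c r) ρ d p) (hx : h p ∈ (D r f : Set (V m))) : False := by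
  obtain ⟨q, hq, hcone⟩ := hp
  obtain ⟨hx1, hx2, hx3⟩ := hx
  have hr0 := P.r0
  have hr1 := P.r1
  have hρ0 := P.ρ0
  have hρ2 := P.ρ2
  have hd := P.d1
  have hrd := P.rd
  set s : ℝ := (1 / 32 - 3 * r) / (2 * d) with hs
  have hsd : s * d = (1 / 32 - 3 * r) / 2 := by rw [hs]; field_simp
  have hs0 : 0 < s := div_pos (by linarith) (by linarith)
  have hs1 : s ≤ 1 := by
    rw [hs, div_le_one (by linarith)]
    linarith
  -- the ball around the point at parameter `s`
  set b : V m := (1 - s) • p + s • q with hb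
  have hball : ball b (s * ρ) ⊆ BB F c r := by
    intro y hy
    rw [mem_ball, dist_eq_norm] at hy
    have h1 := hcone (s⁻¹ • (y - b)) (by
      rw [norm_smul, norm_inv, Real.norm_eq_abs, abs_of_pos hs0, inv_mul_le_iff₀ hs0]
      exact hy.le) s hs0.le hs1
    have h2 : (1 - s) • p + s • (q + s⁻¹ • (y - b)) = y := by
      rw [smul_add, smul_smul, mul_inv_cancel₀ hs0.ne', one_smul, hb]
      abel
    rwa [h2] at h1
  have hballi : ball b (s * ρ) ⊆ interior (BB F c r) := interior_maximal hball isOpen_ball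
  set t : ℝ := s * (ρ / 2) with ht
  have ht0 : 0 < t := by rw [ht]; positivity
  have htr : r < t := by
    have h1 : 512 * r * d * s ≤ ρ * s := mul_le_mul_of_nonneg_right hrd hs0.le
    have h2 : 512 * r * d * s = 256 * r * (1 / 32 - 3 * r) := by
      calc 512 * r * d * s = 512 * r * (s * d) := by ring
        _ = _ := by rw [hsd]; ring
    rw [ht]
    nlinarith
  have ht32 : t ≤ 1 / 32 := by rw [ht]; nlinarith
  -- points in the image
  have hcent : ‖h b - h p‖ ≤ (1 / 32 - 3 * r) / 2 := by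
    rw [iso_sub, LinearIsometryEquiv.norm_map]
    have : b - p = s • (q - p) := by rw [hb]; module
    rw [this, norm_smul, Real.norm_eq_abs, abs_of_pos hs0, ← hsd]
    exact mul_le_mul_of_nonneg_left hq hs0.le
  have himg : ∀ ε : ℝ, |ε| = t → h b + ε • e1 (m + 1) ∈ interior (h '' BB F c r) := by
    intro ε hε
    rw [image_interior_iso]
    refine ⟨b + (lin h).symm (ε • e1 (m + 1)), hballi ?_, ?_⟩
    · rw [mem_ball, dist_eq_norm, add_sub_cancel_left, LinearIsometryEquiv.norm_map, norm_smul,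
        norm_e1, mul_one, Real.norm_eq_abs, hε, ht]
      nlinarith
    · rw [iso_add, LinearIsometryEquiv.apply_symm_apply]
  have hwall : ∀ ε : ℝ, |ε| = t → t ≤ rad (h b + ε • e1 (m + 1)) →
      h b + ε • e1 (m + 1) ∈ interior (BB F c r) := by
    intro ε hε hrad
    have h0 : (h b + ε • e1 (m + 1)) 0 = h p 0 + (h b - h p) 0 := by
      rw [PiLp.add_apply, PiLp.smul_apply, e1_zero', smul_zero, add_zero, PiLp.sub_apply]
      ring
    have h1 := abs_le.mp ((abs_coord_le (h b - h p) 0).trans hcent)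
    refine wall_sub hf ?_ ?_ (lt_of_lt_of_le htr hrad) ?_
    · rw [h0]; linarith [h1.1]
    · rw [h0]; linarith [h1.2]
    · have h2 : h b + ε • e1 (m + 1) = h p + ((h b - h p) + ε • e1 (m + 1)) := by abel
      rw [h2]
      refine lt_of_le_of_lt (rad_add_le _ _) ?_
      have h3 := norm_add_le (h b - h p) (ε • e1 (m + 1))
      rw [norm_smul, norm_e1, mul_one, Real.norm_eq_abs, hε] at h3
      linarith
  rcases far_point (h b) ht0.le with hfar | hfar
  · exact Set.disjoint_left.mp hdis (hwall t (abs_of_pos ht0) hfar) (himg t (abs_of_pos ht0))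
  · exact Set.disjoint_left.mp hdis (hwall (-t) (by rw [abs_neg, abs_of_pos ht0]) hfar)
      (himg (-t) (by rw [abs_neg, abs_of_pos ht0]))

end Pool.Agent.H58.HeeschC
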