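import Mathlib
import Pool.Agent.H58.HeeschC.Pit

set_option autoImplicit false

namespace Pool.Agent.H58.HeeschC

open Metric Set Pool.Agent.H58.Heesch

variable {m : ℕ}

lemma inner_lin (h : V m ≃ᵢ V m) (v : V m) : inner ℝ (lin h (ee m)) v = ((lin h).symm v) 0 := by
  rw [← inner_e0 ((lin h).symm v), ← LinearIsometryEquiv.inner_map_map (lin h) (e0 (m + 1)),
    LinearIsometryEquiv.apply_symm_apply]

lemma norm_lin_ee (h : V m ≃ᵢ V m) : ‖lin h (ee m)‖ = 1 := by
  rw [LinearIsometryEquiv.norm_map, norm_ee]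

/-- the half ball behind a pin is in the interior of the copy -/
lemma half_ball {F : Set ℤ} {c r : ℝ} (h : V m ≃ᵢ V m) {f : ℤ} (hf : f ∈ F) {w : V m}
    (hw : ‖w‖ < 1 / 4) (hw0 : 0 < inner ℝ (lin h (ee m)) w) :
    h (ax f) + w ∈ interior (h '' BB F c r) := by
  rw [image_interior_iso]
  rw [inner_lin] at hw0
  set v := (lin h).symm w with hv
  have hvn : ‖v‖ < 1 / 4 := by rw [hv, LinearIsometryEquiv.norm_map]; exact hw
  have hvi : ∀ i, |v i| < 1 / 4 := fun i => lt_of_le_of_lt (abs_coord_le v i) hvn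
  refine ⟨ax f + v, Bx_sub hf ⟨?_, ?_, fun i hi => ?_, ?_⟩, ?_⟩
  · rw [PiLp.add_apply, ax_zero]; linarith
  · rw [PiLp.add_apply, ax_zero]; linarith [(abs_lt.mp (hvi 0)).2]
  · have h1 := abs_lt.mp (hvi i)
    have h2 := cc_bd (m := m) hi
    rw [PiLp.add_apply, ax_ne _ hi]
    constructor <;> linarith [h1.1, h1.2, h2.1, h2.2]
  · have h1 := abs_lt.mp (hvi 2)
    rw [PiLp.add_apply, ax_ne _ two_ne, cc_two]
    linarith [h1.1]
  · rw [iso_add, hv, LinearIsometryEquiv.apply_symm_apply]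

/-- decomposition of a point of a pin -/
lemma pin_decomp (f : ℝ) (p : V m) : p - ax f = N p + (p 0 - f) • ee m := by
  unfold N ax
  module

lemma pin_norm {f r : ℝ} {p : V m} (hp1 : f - 1 / 32 ≤ p 0) (hp2 : p 0 < f) (hp3 : rad p ≤ r) :
    ‖p - ax f‖ ≤ 1 / 32 + r := by
  rw [pin_decomp]
  refine (norm_add_le _ _).trans ?_
  rw [norm_smul, norm_ee, mul_one, Real.norm_eq_abs, abs_of_neg (by linarith)]
  unfold rad at hp3
  linarith

lemma pin_dist {f r : ℝ} (h : V m ≃ᵢ V m) {p : V m} (hp1 : f - 1 / 32 ≤ p 0) (hp2 : p 0 < f)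
    (hp3 : rad p ≤ r) : ‖h (ax f) - h p‖ ≤ 1 / 32 + r := by
  rw [← norm_neg, neg_sub, iso_sub, LinearIsometryEquiv.norm_map]
  exact pin_norm hp1 hp2 hp3

/-- the base of a pin reaching the bottom of a pit is outside of the pit -/
lemma pin_base {F : Set ℤ} {c r : ℝ} (hr0 : 0 < r) (hr1 : r ≤ 1 / 1024) {h : V m ≃ᵢ V m}
    (hdis : Disjoint (interior (BB F c r)) (interior (h '' BB F c r))) {f f' : ℤ} (hf : f ∈ F)
    (hf' : f' ∈ F) {p : V m} (hp1 : (f' : ℝ) - 1 / 32 ≤ p 0) (hp2 : p 0 < f') (hp3 : rad p ≤ r)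
    (hx : h p ∈ (D r f : Set (V m))) : (f : ℝ) + 1 ≤ h (ax f') 0 := by
  by_contra hcon
  push Not at hcon
  obtain ⟨hx1, hx2, hx3⟩ := hx
  have hdist := pin_dist h hp1 hp2 hp3
  set o := h (ax (f' : ℝ)) with ho
  have ho0 : (f : ℝ) < o 0 := by
    have h1 := abs_le.mp ((abs_coord_le (o - h p) 0).trans hdist)
    rw [PiLp.sub_apply] at h1
    linarith [h1.1]
  have horad : rad o ≤ 1 / 32 + 2 * r := by
    have h1 := rad_add_le (h p) (o - h p)
    rw [add_sub_cancel] at h1
    linarith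
  set e := lin h (ee m) with he
  have hen : ‖e‖ = 1 := norm_lin_ee h
  set μ : ℝ := min (o 0 - f) (min (f + 1 - o 0) (1 / 16)) / 2 with hμ
  have hμ0 : 0 < μ := by
    rw [hμ]
    have : 0 < min (o 0 - f) (min (f + 1 - o 0) (1 / 16)) :=
      lt_min (by linarith) (lt_min (by linarith) (by norm_num))
    linarith
  have hμ1 : μ < o 0 - f := by
    have : min (o 0 - f) (min (f + 1 - o 0) (1 / 16)) ≤ o 0 - f := min_le_left _ _
    have : 2 * μ ≤ o 0 - f := by rw [hμ]; linarith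
    linarith
  have hμ2 : μ < f + 1 - o 0 := by
    have : min (o 0 - f) (min (f + 1 - o 0) (1 / 16)) ≤ f + 1 - o 0 :=
      (min_le_right _ _).trans (min_le_left _ _)
    have : 2 * μ ≤ f + 1 - o 0 := by rw [hμ]; linarith
    linarith
  have hμ3 : μ ≤ 1 / 32 := by
    have : min (o 0 - f) (min (f + 1 - o 0) (1 / 16)) ≤ 1 / 16 :=
      (min_le_right _ _).trans (min_le_right _ _)
    rw [hμ]; linarith
  have heμ : ‖μ • e‖ = μ := by
    rw [norm_smul, hen, mul_one, Real.norm_eq_abs, abs_of_pos hμ0]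
  -- general claim for a sign
  have key : ∀ ε : ℝ, |ε| = 1 / 8 → 0 ≤ ε * e 1 → False := by
    intro ε hε hs
    have hεn : ‖ε • e1 (m + 1)‖ = 1 / 8 := by
      rw [norm_smul, norm_e1, mul_one, Real.norm_eq_abs, hε]
    set w := μ • e + ε • e1 (m + 1) with hw
    have hwn : ‖w‖ < 1 / 4 := by
      have := norm_add_le (μ • e) (ε • e1 (m + 1))
      rw [heμ, hεn] at this
      rw [hw]; linarith
    have hin : inner ℝ e (e1 (m + 1)) = e 1 := by
      simp [e1, EuclideanSpace.inner_single_right]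
    have hwi : 0 < inner ℝ e w := by
      rw [hw, inner_add_right, inner_smul_right, inner_smul_right, real_inner_self_eq_norm_sq, hen,
        hin]
      linarith
    have h1 := half_ball (c := c) (r := r) h hf' hwn hwi
    rw [← ho] at h1
    have h2 : o + w = (o + μ • e) + ε • e1 (m + 1) := by rw [hw]; abel
    have h3 : (o + w) 0 = o 0 + (μ • e) 0 := by
      rw [h2, PiLp.add_apply, PiLp.smul_apply, e1_zero', smul_zero, add_zero, PiLp.add_apply]
    have h4 := abs_le.mp ((abs_coord_le (μ • e) 0).trans heμ.le)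
    have h5 : rad (o + μ • e) ≤ 1 / 16 + 2 * r := by
      have := rad_add_le o (μ • e)
      rw [heμ] at this
      linarith
    have h6 : rad (o + w) ≤ rad (o + μ • e) + 1 / 8 := by
      rw [h2, ← hεn]; exact rad_add_le _ _
    have h7 : 1 / 8 - rad (o + μ • e) ≤ rad (o + w) := by
      rw [h2]
      unfold rad
      rw [N_add_of (p := o + μ • e) (v := ε • e1 (m + 1))
        (by rw [PiLp.smul_apply, e1_zero', smul_zero])]
      have := norm_sub_norm_le (ε • e1 (m + 1)) (-(N (o + μ • e)))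
      rw [norm_neg, sub_neg_eq_add, hεn, add_comm (ε • e1 (m + 1))] at this
      exact this
    have h8 : o + w ∈ interior (BB F c r) := by
      refine wall_sub hf ?_ ?_ ?_ ?_
      · rw [h3]; linarith [h4.1]
      · rw [h3]; linarith [h4.2]
      · linarith
      · linarith
    exact Set.disjoint_left.mp hdis h8 h1
  rcases le_total 0 (e 1) with h0 | h0
  · exact key (1 / 8) (by norm_num) (by linarith)
  · exact key (-(1 / 8)) (by norm_num) (by linarith)

/-- the direction of a pin reaching the bottom of a pit -/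
lemma pin_dir {r : ℝ} (hr1 : r ≤ 1 / 1024) {h : V m ≃ᵢ V m} {f f' : ℤ}
    {p : V m} (hp1 : (f' : ℝ) - 1 / 32 ≤ p 0) (hp2 : p 0 < f') (hp3 : rad p ≤ r)
    (hx : h p ∈ (D r f : Set (V m))) (hb : (f : ℝ) + 1 ≤ h (ax f') 0) :
    1 - 128 * r < (lin h (ee m)) 0 := by
  obtain ⟨hx1, hx2, hx3⟩ := hx
  set e := lin h (ee m) with he
  have h1 : h p = h (ax (f' : ℝ)) + (lin h (N p) + (p 0 - f') • e) := by
    rw [he, ← map_smul, ← map_add, ← pin_decomp, ← iso_sub]
    abel
  have h2 : h p 0 = h (ax (f' : ℝ)) 0 + ((lin h (N p)) 0 + (p 0 - f') * e 0) := by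
    rw [h1, PiLp.add_apply, PiLp.add_apply, PiLp.smul_apply, smul_eq_mul]
  have h3 : |(lin h (N p)) 0| ≤ r := by
    refine (abs_coord_le _ 0).trans ?_
    rw [LinearIsometryEquiv.norm_map]
    exact hp3
  rw [abs_le] at h3
  have h4 : 1 / 32 - 4 * r < (f' - p 0) * e 0 := by
    have : (p 0 - f') * e 0 = -((f' - p 0) * e 0) := by ring
    rw [this] at h2
    linarith [h3.1]
  have h5 : 0 < (f' : ℝ) - p 0 := by linarith
  have h6 : 0 < e 0 := by
    by_contra hcon
    push Not at hcon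
    nlinarith
  nlinarith

/-- a common interior point of all tiles with a pin reaching the bottom of the pit -/
lemma pin_common {F : Set ℤ} {c r : ℝ} (hr1 : r ≤ 1 / 1024) {h : V m ≃ᵢ V m}
    {f f' : ℤ} (hf' : f' ∈ F) {p : V m} (hp1 : (f' : ℝ) - 1 / 32 ≤ p 0) (hp2 : p 0 < f')
    (hp3 : rad p ≤ r) (hx : h p ∈ (D r f : Set (V m))) (he0 : 1 - 128 * r < (lin h (ee m)) 0) :
    (ax ((f : ℝ) + 9 / 8) : V m) ∈ interior (h '' BB F c r) := by
  obtain ⟨hx1, hx2, hx3⟩ := hx
  have hdist := pin_dist h hp1 hp2 hp3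
  set w : V m := ax ((f : ℝ) + 9 / 8) - h (ax (f' : ℝ)) with hw
  have hw1 : w = ((f : ℝ) + 9 / 8 - h p 0) • ee m + (-(N (h p)) + (h p - h (ax (f' : ℝ)))) := by
    rw [hw]
    unfold N ax
    module
  have h0 : ax ((f : ℝ) + 9 / 8) = h (ax (f' : ℝ)) + w := by rw [hw]; abel
  rw [h0]
  have hr0 : 0 ≤ r := (rad_nonneg p).trans hp3
  refine half_ball h hf' ?_ ?_
  · rw [hw1]
    have h1 := norm_add_le (((f : ℝ) + 9 / 8 - h p 0) • ee m) (-(N (h p)) + (h p - h (ax (f' : ℝ))))
    have h2 := norm_add_le (-(N (h p))) (h p - h (ax (f' : ℝ)))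
    rw [norm_neg] at h2
    rw [norm_smul, norm_ee, mul_one, Real.norm_eq_abs, abs_of_pos (by linarith)] at h1
    rw [← norm_neg, neg_sub] at hdist
    unfold rad at hx3
    linarith
  · rw [hw1, inner_add_right, inner_add_right, inner_smul_right, inner_neg_right, inner_e0', iso_sub,
      LinearIsometryEquiv.inner_map_map, inner_e0]
    have h1 : (p - ax (f' : ℝ) : V m) 0 = p 0 - f' := by rw [PiLp.sub_apply, ax_zero]
    rw [h1]
    have h2 : |inner ℝ (lin h (ee m)) (N (h p))| ≤ ‖lin h (ee m)‖ * ‖N (h p)‖ :=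
      abs_real_inner_le_norm _ _
    rw [norm_lin_ee, one_mul] at h2
    unfold rad at hx3
    have h3 := (abs_le.mp h2).2
    have h4 : (5 / 32 - 3 * r) * (1 - 128 * r) ≤ ((f : ℝ) + 9 / 8 - h p 0) * (lin h (ee m)) 0 := by
      apply mul_le_mul
      · linarith
      · exact he0.le
      · linarith
      · linarith
    nlinarith

/-- a unit vector orthogonal to `e₀` and to a given vector -/
lemma exists_orth (e : V m) : ∃ u : V m, ‖u‖ = 1 ∧ u 0 = 0 ∧ inner ℝ e u = 0 := by
  set w : V m := (e 2) • e1 (m + 1) - (e 1) • EuclideanSpace.single 2 (1 : ℝ) with hw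
  have h12 := one_ne_two (m := m)
  have h2 := two_ne (m := m)
  have hw0 : w 0 = 0 := by
    rw [hw, PiLp.sub_apply, PiLp.smul_apply, PiLp.smul_apply, e1_zero']
    simp [h2.symm]
  have hwe : inner ℝ e w = 0 := by
    rw [hw, inner_sub_right, inner_smul_right, inner_smul_right]
    simp only [e1, EuclideanSpace.inner_single_right]
    simp
    ring
  by_cases hz : w = 0
  · refine ⟨e1 (m + 1), norm_e1, e1_zero, ?_⟩
    have : w 2 = 0 := by rw [hz]; rfl
    rw [hw, PiLp.sub_apply, PiLp.smul_apply, PiLp.smul_apply] at this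
    have h3 : (e1 (m + 1)) 2 = 0 := by simp [e1, h12.symm]
    rw [h3] at this
    simp at this
    simp [e1, EuclideanSpace.inner_single_right, this]
  · have hn : ‖w‖ ≠ 0 := norm_ne_zero_iff.mpr hz
    refine ⟨‖w‖⁻¹ • w, ?_, ?_, ?_⟩
    · rw [norm_smul, norm_inv, norm_norm, inv_mul_cancel₀ hn]
    · rw [PiLp.smul_apply, hw0, smul_zero]
    · rw [inner_smul_right, hwe, mul_zero]

/-- the cylinder argument -/
lemma pin_axis {r : ℝ} (hr0 : 0 < r) {h : V m ≃ᵢ V m} {f f' : ℤ}
    (hD : ∀ x ∈ (D r f : Set (V m)), (f' : ℝ) - 1 / 32 ≤ h.symm x 0 ∧ h.symm x 0 < f' ∧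
      rad (h.symm x) ≤ r)
    (hb : (f : ℝ) + 1 ≤ h (ax f') 0) (he0 : 0 < (lin h (ee m)) 0) :
    ∀ x : ℝ, h (ax x) = ax (x - f' + f + 1) := by
  obtain ⟨u, hu1, hu0, hue⟩ := exists_orth (lin h (ee m))
  have hsymm : ∀ x v : V m, h.symm (x + v) = h.symm x + (lin h).symm v := by
    intro x v
    apply h.injective
    rw [h.apply_symm_apply, iso_add, h.apply_symm_apply, LinearIsometryEquiv.apply_symm_apply]
  have hMu : ((lin h).symm u) 0 = 0 := by rw [← inner_lin, hue]
  -- axis points of `D` come from the axis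
  have haxis : ∀ σ : ℝ, 0 < σ → σ < 3 * r → N (h.symm (ax ((f : ℝ) + 31 / 32 + σ))) = 0 := by
    intro σ hσ0 hσ1
    set z := h.symm (ax ((f : ℝ) + 31 / 32 + σ)) with hz
    have hmem : ∀ t : ℝ, |t| < r → ax ((f : ℝ) + 31 / 32 + σ) + t • u ∈ (D r f : Set (V m)) := by
      intro t ht
      refine ⟨?_, ?_, ?_⟩
      · rw [PiLp.add_apply, ax_zero, PiLp.smul_apply, hu0, smul_zero]; linarith
      · rw [PiLp.add_apply, ax_zero, PiLp.smul_apply, hu0, smul_zero]; linarith
      · unfold rad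
        rw [N_add_of (by rw [PiLp.smul_apply, hu0, smul_zero]), N_ax, zero_add, norm_smul, hu1,
          mul_one, Real.norm_eq_abs]
        exact ht
    have hN : ∀ t : ℝ, |t| < r → ‖N z + t • (lin h).symm u‖ ≤ r := by
      intro t ht
      have h1 := (hD _ (hmem t ht)).2.2
      rw [hsymm, map_smul, ← hz] at h1
      unfold rad at h1
      rwa [N_add_of (by rw [PiLp.smul_apply, hMu, smul_zero])] at h1
    have hsq : ∀ t : ℝ, 0 ≤ t → t < r → ‖N z‖ ^ 2 + t ^ 2 ≤ r ^ 2 := by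
      intro t ht0 ht1
      have h1 := hN t (by rwa [abs_of_nonneg ht0])
      have h2 := hN (-t) (by rwa [abs_neg, abs_of_nonneg ht0])
      have h3 := parallelogram_law_with_norm ℝ (N z) (t • (lin h).symm u)
      rw [sub_eq_add_neg, ← neg_smul, norm_smul t, LinearIsometryEquiv.norm_map, hu1, mul_one,
        Real.norm_eq_abs, abs_of_nonneg ht0] at h3
      have h4 := mul_self_le_mul_self (norm_nonneg _) h1
      have h5 := mul_self_le_mul_self (norm_nonneg _) h2
      nlinarith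
    by_contra hne
    have hpos : 0 < ‖N z‖ := norm_pos_iff.mpr hne
    have hle : ‖N z‖ ≤ r := by
      have := hN 0 (by simpa using hr0)
      simpa using this
    -- choose `t`
    have h1 := hsq (r - ‖N z‖ ^ 2 / (4 * r)) (by
      rw [sub_nonneg, div_le_iff₀ (by linarith)]
      nlinarith) (by
      have : 0 < ‖N z‖ ^ 2 / (4 * r) := by positivity
      linarith)
    have h2 : ‖N z‖ ^ 2 / (4 * r) * (4 * r) = ‖N z‖ ^ 2 := by field_simp
    nlinarith [sq_nonneg (‖N z‖ ^ 2 / (4 * r))]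
  have hax : ∀ σ : ℝ, 0 < σ → σ < 3 * r → h.symm (ax ((f : ℝ) + 31 / 32 + σ)) =
      ax (h.symm (ax ((f : ℝ) + 31 / 32 + σ)) 0) := by
    intro σ h1 h2
    have h3 := haxis σ h1 h2
    unfold N at h3
    rwa [sub_eq_zero] at h3
  set y1 := h.symm (ax ((f : ℝ) + 31 / 32 + r)) 0 with hy1
  set y2 := h.symm (ax ((f : ℝ) + 31 / 32 + 2 * r)) 0 with hy2
  have e1 := hax r hr0 (by linarith)
  have e2 := hax (2 * r) (by linarith) (by linarith)
  rw [← hy1] at e1
  rw [← hy2] at e2
  have hM : r • (lin h).symm (ee m) = (y2 - y1) • ee m := by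
    have h1 : (ax ((f : ℝ) + 31 / 32 + 2 * r) : V m) = ax ((f : ℝ) + 31 / 32 + r) + r • ee m := by
      rw [← ax_add]; congr 1; ring
    have h2 := hsymm (ax ((f : ℝ) + 31 / 32 + r)) (r • ee m)
    rw [← h1, e1, e2, map_smul] at h2
    have h3 : r • (lin h).symm (ee m) = ax y2 - ax y1 := by rw [h2]; abel
    rw [h3, ax_sub]
  set κ := (y2 - y1) / r with hκ
  have hM' : (lin h).symm (ee m) = κ • ee m := by
    have : (lin h).symm (ee m) = r⁻¹ • (r • (lin h).symm (ee m)) := by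
      rw [smul_smul, inv_mul_cancel₀ hr0.ne', one_smul]
    rw [this, hM, smul_smul, hκ]
    congr 1
    field_simp
  have hκe : (lin h (ee m)) 0 = κ := by
    rw [← inner_e0', inner_lin, hM', PiLp.smul_apply, ee_zero, smul_eq_mul, mul_one]
  have hκ1 : κ = 1 := by
    have h1 : ‖(lin h).symm (ee m)‖ = 1 := by rw [LinearIsometryEquiv.norm_map, norm_ee]
    rw [hM', norm_smul, norm_ee, mul_one, Real.norm_eq_abs] at h1
    rw [hκe] at he0
    rwa [abs_of_pos he0] at h1
  rw [hκ1, one_smul] at hM'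
  have hL : lin h (ee m) = ee m := by
    have := congrArg (lin h) hM'
    rw [LinearIsometryEquiv.apply_symm_apply] at this
    exact this.symm
  -- the isometry on the axis
  set β := (f : ℝ) + 31 / 32 + r - y1 with hβ
  have hh : ∀ x : ℝ, h (ax x) = ax (x + β) := by
    intro x
    have h1 : h (ax y1) = ax ((f : ℝ) + 31 / 32 + r) := by
      rw [← e1, h.apply_symm_apply]
    have h2 : (ax x : V m) = ax y1 + (x - y1) • ee m := by rw [← ax_add]; congr 1; ring
    rw [h2, iso_add, h1, map_smul, hL, ← ax_add, hβ]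
    congr 1
    ring
  have hinv : ∀ x : ℝ, h.symm (ax x) = ax (x - β) := by
    intro x
    apply h.injective
    rw [h.apply_symm_apply, hh]
    congr 1
    ring
  have hβ1 : (f : ℝ) + 1 ≤ f' + β := by
    rw [hh, ax_zero] at hb
    exact hb
  have hβ2 : f' + β ≤ (f : ℝ) + 1 := by
    by_contra hcon
    push Not at hcon
    set σ := min r ((f' + β - (f + 1)) / 2) with hσ
    have hσ0 : 0 < σ := lt_min hr0 (by linarith)
    have hσ1 : σ ≤ r := min_le_left _ _
    have hσ2 : σ ≤ (f' + β - (f + 1)) / 2 := min_le_right _ _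
    have h1 := (hD (ax ((f : ℝ) + 31 / 32 + σ)) ⟨by rw [ax_zero]; linarith,
      by rw [ax_zero]; linarith, by unfold rad; rw [N_ax, norm_zero]; exact hr0⟩).1
    rw [hinv, ax_zero] at h1
    linarith
  intro x
  rw [hh]
  congr 1
  linarith

end Pool.Agent.H58.HeeschC
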