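import Mathlib
import Pool.Agent.H58.HeeschC.Pin
import Pool.Agent.H58.HeeschC.OneDim

set_option autoImplicit false

namespace Pool.Agent.H58.HeeschC

open Metric Set Pool.Agent.H58.Heesch

variable {m : ℕ}

/-- a family of isometries whose images of `A` tile the space -/
structure Fam (A : Set (V m)) (H : Set (V m ≃ᵢ V m)) : Prop where
  cov : ∀ x, ∃ h ∈ H, x ∈ h '' A
  dis : ∀ h ∈ H, ∀ h' ∈ H, h '' A = h' '' A ∨ Disjoint (interior (h '' A)) (interior (h' '' A))

lemma refl_image (A : Set (V m)) : (IsometryEquiv.refl (V m)) '' A = A := by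
  ext x
  constructor
  · rintro ⟨y, hy, rfl⟩; exact hy
  · intro hx; exact ⟨x, hx, rfl⟩

lemma dist_D {r f : ℝ} {x y : V m} (hx : x ∈ D r f) (hy : y ∈ D r f) : ‖x - y‖ ≤ 5 * r := by
  obtain ⟨h1, h2, h3⟩ := hx
  obtain ⟨h4, h5, h6⟩ := hy
  have h7 : x - y = (x 0 - y 0) • ee m + (N x + -(N y)) := by
    unfold N ax; module
  rw [h7]
  have h8 := norm_add_le ((x 0 - y 0) • ee m) (N x + -(N y))
  have h9 := norm_add_le (N x) (-(N y))
  rw [norm_neg] at h9
  unfold rad at h3 h6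
  have h10 : ‖(x 0 - y 0) • ee m‖ ≤ 3 * r := by
    rw [norm_smul, norm_ee, mul_one, Real.norm_eq_abs, abs_le]
    constructor <;> linarith
  linarith

theorem pit0 {F : Set ℤ} (hF : ∀ f ∈ F, f + 1 ∉ F) {c r ρ d : ℝ} (P : Par m c r ρ d)
    {H : Set (V m ≃ᵢ V m)} (hH : Fam (BB F c r) H) (hid : IsometryEquiv.refl (V m) ∈ H)
    {f : ℤ} (hf : f ∈ F) :
    ∃ h ∈ H, ∃ f' ∈ F, ∀ x : ℝ, h (ax x) = ax (x - f' + f + 1) := by
  have hr0 := P.r0
  have hr1 := P.r1
  -- all facts about a tile covering a point of the pit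
  have gen : ∀ k ∈ H, ∀ p ∈ (BB F c r : Set (V m)), k p ∈ (D r f : Set (V m)) →
      ∃ f' ∈ F, (f' : ℝ) - 1 / 32 ≤ p 0 ∧ p 0 < f' ∧ rad p ≤ r ∧ (f : ℝ) + 1 ≤ k (ax f') 0 ∧
        1 - 128 * r < (lin k (ee m)) 0 ∧ (ax ((f : ℝ) + 9 / 8) : V m) ∈ interior (k '' BB F c r) := by
    intro k hk p hp hx
    have hdis : Disjoint (interior (BB F c r)) (interior (k '' BB F c r)) := by
      rcases hH.dis _ hid _ hk with h | h
      · exfalso
        rw [refl_image] at h
        have : k p ∈ (BB F c r : Set (V m)) := by rw [h]; exact ⟨p, hp, rfl⟩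
        exact pit_disj hF hr1 hf hx this
      · rwa [refl_image] at h
    rcases thick_or_pin P hp with h | ⟨f', hf', h1, h2, h3⟩
    · exact (not_thick P hdis hf h hx).elim
    · have hb := pin_base hr0 hr1 hdis hf hf' h1 h2 h3 hx
      have he := pin_dir hr1 h1 h2 h3 hx hb
      exact ⟨f', hf', h1, h2, h3, hb, he, pin_common hr1 hf' h1 h2 h3 hx he⟩
  have hx1 : (ax ((f : ℝ) + 31 / 32 + r) : V m) ∈ (D r f : Set (V m)) := by
    refine ⟨by rw [ax_zero]; linarith, by rw [ax_zero]; linarith, ?_⟩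
    unfold rad; rw [N_ax, norm_zero]; exact hr0
  obtain ⟨h, hh, p, hp, hpx⟩ := hH.cov (ax ((f : ℝ) + 31 / 32 + r))
  rw [← hpx] at hx1
  obtain ⟨f', hf', h1, h2, h3, h4, h5, h6⟩ := gen h hh p hp hx1
  refine ⟨h, hh, f', hf', pin_axis hr0 ?_ h4 (by linarith)⟩
  intro x hx
  obtain ⟨k, hk, p', hp', hpx'⟩ := hH.cov x
  have hx' := hx
  rw [← hpx'] at hx'
  obtain ⟨f2, hf2, -, -, -, -, -, g6⟩ := gen k hk p' hp' hx'
  have hkh : k '' BB F c r = h '' BB F c r := by
    rcases hH.dis _ hk _ hh with h' | h'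
    · exact h'
    · exact (Set.disjoint_left.mp h' g6 h6).elim
  have hxh : x ∈ h '' BB F c r := by rw [← hkh]; exact ⟨p', hp', hpx'⟩
  obtain ⟨q, hq, hqx⟩ := hxh
  have hx2 := hx
  rw [← hqx] at hx2
  obtain ⟨f3, hf3, k1, k2, k3, k4, k5, k6⟩ := gen h hh q hq hx2
  have hf3' : f3 = f' := by
    have d1 := pin_dist h k1 k2 k3
    have d2 := pin_dist h h1 h2 h3
    have d3 := dist_D hx2 hx1
    have d4 : h (ax (f3 : ℝ)) - h (ax (f' : ℝ)) =
        (h (ax (f3 : ℝ)) - h q) + ((h q - h p) + -(h (ax (f' : ℝ)) - h p)) := by abel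
    have d5 : ‖h (ax (f3 : ℝ)) - h (ax (f' : ℝ))‖ = |(f3 : ℝ) - f'| := by
      rw [iso_sub, LinearIsometryEquiv.norm_map, ax_sub, norm_smul, norm_ee, mul_one,
        Real.norm_eq_abs]
    have d6 := norm_add_le (h (ax (f3 : ℝ)) - h q) ((h q - h p) + -(h (ax (f' : ℝ)) - h p))
    have d7 := norm_add_le (h q - h p) (-(h (ax (f' : ℝ)) - h p))
    rw [norm_neg] at d7
    rw [← d4, d5] at d6
    have d8 : |(f3 : ℝ) - f'| < 1 := by linarith
    rw [abs_lt] at d8
    have d9 : (f3 : ℝ) < f' + 1 := by linarith [d8.2]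
    have d10 : (f' : ℝ) < f3 + 1 := by linarith [d8.1]
    have d11 : f3 < f' + 1 := by exact_mod_cast d9
    have d12 : f' < f3 + 1 := by exact_mod_cast d10
    omega
  have hsy : h.symm x = q := by rw [← hqx, h.symm_apply_apply]
  rw [hsy, ← hf3']
  exact ⟨k1, k2, k3⟩

theorem pit {F : Set ℤ} (hF : ∀ f ∈ F, f + 1 ∉ F) {c r ρ d : ℝ} (P : Par m c r ρ d)
    {H : Set (V m ≃ᵢ V m)} (hH : Fam (BB F c r) H) {g : V m ≃ᵢ V m} (hg : g ∈ H)
    {f : ℤ} (hf : f ∈ F) :
    ∃ h ∈ H, ∃ f' ∈ F, ∀ x : ℝ, h (ax x) = g (ax (x - f' + f + 1)) := by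
  set H' : Set (V m ≃ᵢ V m) := {h | h.trans g ∈ H} with hH'
  have himg : ∀ h : V m ≃ᵢ V m, (h.trans g) '' BB F c r = g '' (h '' BB F c r) := by
    intro h
    rw [← image_comp]
    rfl
  have hfam : Fam (BB F c r) H' := by
    constructor
    · intro x
      obtain ⟨k, hk, p, hp, hpx⟩ := hH.cov (g x)
      refine ⟨k.trans g.symm, ?_, p, hp, ?_⟩
      · change (k.trans g.symm).trans g ∈ H
        have : (k.trans g.symm).trans g = k := by
          ext y; simp
        rw [this]; exact hk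
      · change g.symm (k p) = x
        rw [hpx, g.symm_apply_apply]
    · intro h hh h' hh'
      rcases hH.dis _ hh _ hh' with h1 | h1
      · left
        rw [himg, himg] at h1
        exact (image_injective.mpr g.injective) h1
      · right
        rw [himg, himg, image_interior_iso g, image_interior_iso g] at h1
        rw [Set.disjoint_left] at h1 ⊢
        intro x hx hx'
        exact h1 ⟨x, hx, rfl⟩ ⟨x, hx', rfl⟩
  have hid : IsometryEquiv.refl (V m) ∈ H' := by
    change (IsometryEquiv.refl (V m)).trans g ∈ H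
    have : (IsometryEquiv.refl (V m)).trans g = g := by ext y; rfl
    rw [this]; exact hg
  obtain ⟨h, hh, f', hf', hx⟩ := pit0 hF P hfam hid hf
  refine ⟨h.trans g, hh, f', hf', fun x => ?_⟩
  change g (h (ax x)) = _
  rw [hx]

theorem not_prototile {a : ℕ} (ha : Odd a) (ha3 : 3 ≤ a) {c r ρ d : ℝ} (P : Par m c r ρ d) :
    ¬ IsPrototile (BB (FF a) c r : Set (V m)) := by
  rintro ⟨T, ⟨-, -, hcov, hdis⟩, hcong⟩
  set A : Set (V m) := BB (FF a) c r with hA
  have hF : ∀ f ∈ FF (a : ℤ), f + 1 ∉ FF (a : ℤ) := by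
    intro f hf hf'
    rw [mem_FF] at hf hf'
    omega
  set H : Set (V m ≃ᵢ V m) := {h | h '' A ∈ T} with hHdef
  have hH : Fam A H := by
    constructor
    · intro x
      have : x ∈ ⋃₀ T := by rw [hcov]; trivial
      obtain ⟨Q, hQ, hx⟩ := this
      obtain ⟨g, rfl⟩ := hcong Q hQ
      exact ⟨g, hQ, hx⟩
    · intro h hh h' hh'
      by_cases heq : h '' A = h' '' A
      · exact Or.inl heq
      · exact Or.inr (hdis hh hh' heq)
  obtain ⟨γ, hγ, -⟩ := hH.cov 0
  set S : Set ℤ := {t | ∃ g ∈ H, ∀ x : ℝ, g (ax x) = γ (ax (x + t))} with hS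
  have hcovS : ∀ n : ℕ, ∃ t ∈ S, ∃ f ∈ FF (a : ℤ), t + f = n := by
    intro n
    induction n with
    | zero =>
      exact ⟨0, ⟨γ, hγ, fun x => by simp⟩, 0, mem_FF.mpr (Or.inl rfl), by simp⟩
    | succ n ih =>
      obtain ⟨t, ⟨g, hg, hgx⟩, f, hf, htf⟩ := ih
      obtain ⟨h, hh, f', hf', hx⟩ := pit hF P hH hg hf
      refine ⟨t - f' + f + 1, ⟨h, hh, fun x => ?_⟩, f', hf', by push_cast; linarith⟩
      rw [hx, hgx]
      congr 2
      push_cast
      ring
  have hFM : ∀ f ∈ FF (a : ℤ), (0 : ℝ) ≤ f ∧ (f : ℝ) ≤ 2 * a + 2 := by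
    intro f hf
    have ha' : (0 : ℝ) ≤ a := by positivity
    rcases mem_FF.mp hf with rfl | rfl | rfl | rfl <;> push_cast <;> constructor <;> linarith
  have huniq : ∀ t ∈ S, ∀ t' ∈ S, ∀ f ∈ FF (a : ℤ), ∀ f' ∈ FF (a : ℤ), t + f = t' + f' → t = t' := by
    rintro t ⟨g, hg, hgx⟩ t' ⟨g', hg', hgx'⟩ f hf f' hf' hsum
    have hpt : ∀ f : ℤ, f ∈ FF (a : ℤ) → (ax ((f : ℝ) + 1 / 2) : V m) ∈ interior A := fun f hf =>
      B0_sub_interior _ c r ⟨f, hf, Or.inr (Or.inl (ax_half_mem_O2 P.r0 f))⟩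
    have h1 : γ (ax ((t + f : ℤ) + 1 / 2 : ℝ)) ∈ interior (g '' A) := by
      rw [image_interior_iso]
      refine ⟨_, hpt f hf, ?_⟩
      rw [hgx]; congr 2; push_cast; ring
    have h2 : γ (ax ((t + f : ℤ) + 1 / 2 : ℝ)) ∈ interior (g' '' A) := by
      rw [image_interior_iso, hsum]
      refine ⟨_, hpt f' hf', ?_⟩
      rw [hgx']; congr 2; push_cast; ring
    have h3 : g '' A = g' '' A := by
      rcases hH.dis _ hg _ hg' with h | h
      · exact h
      · exact (Set.disjoint_left.mp h h1 h2).elim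
    -- axis translation symmetry
    have hstep : ∀ x : ℝ, (ax x : V m) ∈ A → (ax (x + (t' - t)) : V m) ∈ A := by
      intro x hx
      have h4 : g' (ax x) ∈ g '' A := by rw [h3]; exact ⟨_, hx, rfl⟩
      obtain ⟨q, hq, hqx⟩ := h4
      have h5 : g (ax (x + (t' - t))) = g' (ax x) := by
        rw [hgx, hgx']; congr 2; ring
      rw [← h5] at hqx
      rw [← g.injective hqx]
      exact hq
    have hstep' : ∀ x : ℝ, (ax x : V m) ∈ A → (ax (x - (t' - t)) : V m) ∈ A := by
      intro x hx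
      have h4 : g (ax x) ∈ g' '' A := by rw [← h3]; exact ⟨_, hx, rfl⟩
      obtain ⟨q, hq, hqx⟩ := h4
      have h5 : g' (ax (x - (t' - t))) = g (ax x) := by
        rw [hgx, hgx']; congr 2; ring
      rw [← h5] at hqx
      rw [← g'.injective hqx]
      exact hq
    have hmem0 : (ax ((0 : ℤ) + 1 / 2 : ℝ) : V m) ∈ A :=
      interior_subset (hpt 0 (mem_FF.mpr (Or.inl rfl)))
    have hbound : ∀ x : ℝ, (ax x : V m) ∈ A → x ≤ 2 * a + 2 + 1 + c := by
      intro x hx
      have := (BB_box P.c0 (by linarith [P.r1]) hFM hx).2.1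
      rwa [ax_zero] at this
    by_contra hne
    have hcases : (1 : ℝ) ≤ (t' : ℝ) - t ∨ (1 : ℝ) ≤ -((t' : ℝ) - t) := by
      rcases lt_or_gt_of_ne hne with h | h
      · left
        have : t + 1 ≤ t' := by omega
        have : ((t + 1 : ℤ) : ℝ) ≤ t' := by exact_mod_cast this
        push_cast at this
        linarith
      · right
        have : t' + 1 ≤ t := by omega
        have : ((t' + 1 : ℤ) : ℝ) ≤ t := by exact_mod_cast this
        push_cast at this
        linarith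
    have hiter : ∀ δ : ℝ, 1 ≤ δ → (∀ x : ℝ, (ax x : V m) ∈ A → (ax (x + δ) : V m) ∈ A) → False := by
      intro δ hδ hs
      have hj : ∀ j : ℕ, (ax (((0 : ℤ) + 1 / 2 : ℝ) + j * δ) : V m) ∈ A := by
        intro j
        induction j with
        | zero => simpa using hmem0
        | succ j ih =>
          have := hs _ ih
          convert this using 2
          push_cast
          ring
      obtain ⟨j, hjj⟩ := exists_nat_gt (2 * (a : ℝ) + 2 + 1 + c)
      have h6 := hbound _ (hj j)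
      have h7 : (j : ℝ) ≤ j * δ := by
        have : (0 : ℝ) ≤ j := by positivity
        nlinarith
      push_cast at h6
      linarith
    rcases hcases with h | h
    · exact hiter _ h hstep
    · exact hiter _ h (fun x hx => by
        have := hstep' x hx
        rwa [sub_eq_add_neg] at this)
  -- the indicator function
  classical
  refine no_run (a := a) (b := a + 2) ha ?_ (fun n => if n ∈ S then 1 else 0) ?_ ?_
  · obtain ⟨k, hk⟩ := ha
    exact ⟨k + 1, by omega⟩
  · intro n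
    by_cases h : n ∈ S
    · right; simp [h]
    · left; simp [h]
  · intro n hn
    obtain ⟨N, rfl⟩ := Int.eq_ofNat_of_zero_le hn
    obtain ⟨t, ht, f, hf, htf⟩ := hcovS N
    have hot : ∀ f' ∈ FF (a : ℤ), f' ≠ f → (N : ℤ) - f' ∉ S := by
      intro f' hf' hne hmem
      have := huniq t ht _ hmem f hf f' hf' (by rw [htf]; ring)
      apply hne
      linarith
    have hin : (N : ℤ) - f ∈ S := by
      have : (N : ℤ) - f = t := by linarith
      rw [this]; exact ht
    have a0 : (0 : ℤ) ∈ FF (a : ℤ) := mem_FF.mpr (Or.inl rfl)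
    have a1 : (a : ℤ) ∈ FF (a : ℤ) := mem_FF.mpr (Or.inr (Or.inl rfl))
    have a2 : (a : ℤ) + 2 ∈ FF (a : ℤ) := mem_FF.mpr (Or.inr (Or.inr (Or.inl rfl)))
    have a3 : 2 * (a : ℤ) + 2 ∈ FF (a : ℤ) := mem_FF.mpr (Or.inr (Or.inr (Or.inr rfl)))
    have e0 : (N : ℤ) = N - 0 := by ring
    have e2 : (N : ℤ) - ((a + 2 : ℕ) : ℤ) = N - (a + 2) := by push_cast; ring
    have e3 : (N : ℤ) - a - ((a + 2 : ℕ) : ℤ) = N - (2 * a + 2) := by push_cast; ring
    have ha0 : (0 : ℤ) < a := by omega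
    simp only [e2, e3]
    rcases mem_FF.mp hf with rfl | rfl | rfl | rfl
    · have h1 := hot _ a1 (by omega)
      have h2 := hot _ a2 (by omega)
      have h3 := hot _ a3 (by omega)
      rw [← e0] at hin
      simp [hin, h1, h2, h3]
    · have h1 := hot _ a0 (by omega)
      have h2 := hot _ a2 (by omega)
      have h3 := hot _ a3 (by omega)
      rw [← e0] at h1
      simp [hin, h1, h2, h3]
    · have h1 := hot _ a0 (by omega)
      have h2 := hot _ a1 (by omega)
      have h3 := hot _ a3 (by omega)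
      rw [← e0] at h1
      simp [hin, h1, h2, h3]
    · have h1 := hot _ a0 (by omega)
      have h2 := hot _ a1 (by omega)
      have h3 := hot _ a2 (by omega)
      rw [← e0] at h1
      simp [hin, h1, h2, h3]

end Pool.Agent.H58.HeeschC
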