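import Mathlib
import Pool.Agent.H58.HeeschC.Body
import Pool.Agent.H58.HeeschC.OneDim

set_option autoImplicit false

namespace Pool.Agent.H58.HeeschC

open Metric Set Pool.Agent.H58.Heesch

variable {m : ℕ}

/-- A finite patch of closed sets of diameter at most `δ` covering a ball of radius more than
`k * δ` surrounds its central tile `k` times. -/
theorem surrounded_of_cover {n : ℕ} {P : Set (Set (EuclideanSpace ℝ (Fin n)))}
    {A : Set (EuclideanSpace ℝ (Fin n))} (hPf : P.Finite) (hcl : ∀ Q ∈ P, IsClosed Q)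
    (hcong : ∀ Q ∈ P, Congruent A Q) (hA : A ∈ P) (hdisj : InteriorsDisjoint P) {δ R : ℝ}
    (hδ : ∀ Q ∈ P, ∀ x ∈ Q, ∀ y ∈ Q, dist x y ≤ δ) {p0 : EuclideanSpace ℝ (Fin n)} (hp0 : p0 ∈ A)
    (hcov : ball p0 R ⊆ ⋃₀ P) {k : ℕ} (hR : k * δ < R) : Surrounded k A := by
  refine ⟨P, hPf, hcong, hA, hdisj, ?_⟩
  intro j hj1 hjk x hx
  obtain ⟨Q, ⟨n, c, hn, hc0, hcn, hcP, hct⟩, hxQ⟩ := hx
  have hδ0 : 0 ≤ δ := by
    have := hδ A hA p0 hp0 p0 hp0
    rwa [dist_self] at this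
  have hdist : ∀ i ≤ n, ∀ y ∈ c i, dist p0 y ≤ (i + 1) * δ := by
    intro i
    induction i with
    | zero =>
      intro _ y hy
      rw [hc0] at hy
      have := hδ A hA p0 hp0 y hy
      simpa using this
    | succ i ih =>
      intro hi y hy
      obtain ⟨w, hw1, hw2⟩ := hct i (by omega)
      have h1 := ih (by omega) w hw1
      have h2 := hδ _ (hcP (i + 1) hi) w hw2 y hy
      have h3 := dist_triangle p0 w y
      push_cast
      linarith
  have hxd : dist p0 x < R := by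
    have h1 := hdist n le_rfl x (by rw [hcn]; exact hxQ)
    have h2 : ((n : ℝ) + 1) ≤ k := by
      have : n + 1 ≤ k := by omega
      exact_mod_cast this
    have h3 : ((n : ℝ) + 1) * δ ≤ k * δ := mul_le_mul_of_nonneg_right h2 hδ0
    linarith
  have hfin : {Q' ∈ P | x ∉ Q'}.Finite := hPf.subset fun Q' h => h.1
  have hclosed : IsClosed (⋃₀ {Q' ∈ P | x ∉ Q'}) := by
    rw [sUnion_eq_biUnion]
    exact hfin.isClosed_biUnion fun Q' h => hcl Q' h.1
  rw [mem_interior]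
  refine ⟨ball p0 R \ ⋃₀ {Q' ∈ P | x ∉ Q'}, ?_, isOpen_ball.sdiff hclosed, ?_, ?_⟩
  · rintro y ⟨hy1, hy2⟩
    obtain ⟨Q', hQ', hyQ'⟩ := hcov hy1
    have hxQ' : x ∈ Q' := by
      by_contra hcon
      exact hy2 ⟨Q', ⟨hQ', hcon⟩, hyQ'⟩
    refine ⟨Q', ⟨n + 1, fun i => if i ≤ n then c i else Q', by omega, ?_, ?_, ?_, ?_⟩, hyQ'⟩
    · simp [hc0]
    · simp
    · intro i _
      by_cases hi : i ≤ n
      · simp only [hi, if_true]; exact hcP i hi
      · simp only [hi, if_false]; exact hQ'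
    · intro i hi
      rcases Nat.lt_or_ge i n with h | h
      · have ha : i ≤ n := by omega
        have hb : i + 1 ≤ n := by omega
        simp only [ha, hb, if_true]
        exact hct i h
      · have hi' : i = n := by omega
        subst hi'
        simp only [le_refl, if_true, show ¬ (i + 1 ≤ i) by omega, if_false]
        rw [hcn]
        exact ⟨x, hxQ, hxQ'⟩
  · rw [mem_ball, dist_comm]; exact hxd
  · rintro ⟨Q', ⟨_, h2⟩, h3⟩
    exact h2 h3

/-! ### The shift function -/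

/-- the shift of the fibre through `p` -/
noncomputable def sh (c r : ℝ) (p : V m) : ℝ :=
  if rad p < r then -(1 / 32) else if p 2 < 1 / 2 then c * p 1 else 0

lemma N_congr {p q : V m} (h : ∀ i, i ≠ 0 → p i = q i) : N p = N q := by
  ext i
  by_cases hi : i = 0
  · rw [hi, N_zero, N_zero]
  · rw [N_ne _ hi, N_ne _ hi, h i hi]

lemma sh_congr {c r : ℝ} {p q : V m} (h : ∀ i, i ≠ 0 → p i = q i) : sh c r p = sh c r q := by
  unfold sh rad
  rw [N_congr h, h 1 one_ne, h 2 two_ne]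

lemma sh_bd {c r : ℝ} (hc : 0 ≤ c) {p : V m} (h : 0 ≤ p 1 ∧ p 1 ≤ 1) :
    -(1 / 32) ≤ sh c r p ∧ sh c r p ≤ c := by
  unfold sh
  split_ifs
  · constructor <;> linarith
  · have h1 := mul_nonneg hc h.1
    have h2 : c * p 1 ≤ c := by nlinarith [h.2]
    constructor <;> linarith
  · constructor <;> linarith

lemma B0_sh {F : Set ℤ} {c r : ℝ} (hr : r ≤ 1 / 16) {p : V m} (hp : p ∈ B0 F c r) :
    (∀ i, i ≠ 0 → 0 < p i ∧ p i < 1) ∧ ∃ f ∈ F, (f : ℝ) < p 0 - sh c r p ∧ p 0 - sh c r p < f + 1 := by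
  obtain ⟨f, hf, h | h | h⟩ := hp
  · obtain ⟨h1, h2, h3, h4, h5⟩ := h
    refine ⟨h3, f, hf, ?_⟩
    unfold sh
    rw [if_neg (not_lt.mpr h5.le), if_neg (not_lt.mpr h4.le)]
    constructor <;> linarith
  · obtain ⟨h1, h2, h3⟩ := h
    refine ⟨fun i hi => ?_, f, hf, ?_⟩
    · have h4 := coord_rad p hi
      have h5 := cc_bd (m := m) hi
      rw [abs_le] at h4
      constructor <;> linarith [h4.1, h4.2, h5.1, h5.2]
    · unfold sh
      rw [if_pos h3]
      constructor <;> linarith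
  · obtain ⟨h1, h2, h3, h4⟩ := h
    refine ⟨h3, f, hf, ?_⟩
    unfold sh
    have h5 : ¬ rad p < r := by
      have h8 := coord_rad p (i := 2) two_ne
      rw [cc_two, abs_le] at h8
      intro hcon
      linarith [h8.1]
    rw [if_neg h5, if_pos h4]
    exact ⟨h1, h2⟩

lemma BB_of_sh {F : Set ℤ} {c r : ℝ} {p : V m} (h : ∀ i, i ≠ 0 → 0 ≤ p i ∧ p i ≤ 1) {f : ℤ}
    (hf : f ∈ F) (h1 : (f : ℝ) ≤ p 0 - sh c r p) (h2 : p 0 - sh c r p ≤ f + 1) : p ∈ BB F c r := by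
  unfold sh at h1 h2
  refine ⟨f, hf, ?_⟩
  by_cases h3 : rad p < r
  · rw [if_pos h3] at h1 h2
    exact Or.inr (Or.inl ⟨by linarith, by linarith, h3.le⟩)
  · rw [if_neg h3] at h1 h2
    by_cases h4 : p 2 < 1 / 2
    · rw [if_pos h4] at h1 h2
      exact Or.inr (Or.inr ⟨h1, h2, h, h4.le⟩)
    · rw [if_neg h4] at h1 h2
      exact Or.inl ⟨by linarith, by linarith, h, not_lt.mp h4, not_lt.mp h3⟩

/-! ### The patch -/

/-- integer translation vector -/
noncomputable def zv (z : Fin (m + 1 + 2) → ℤ) : V m := WithLp.toLp 2 (fun i => (z i : ℝ))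

lemma zv_apply (z : Fin (m + 1 + 2) → ℤ) (i : Fin (m + 1 + 2)) : (zv z : V m) i = z i := rfl

lemma sub_zv (p : V m) (z : Fin (m + 1 + 2) → ℤ) (i : Fin (m + 1 + 2)) : (p - zv z) i = p i - z i := rfl

/-- translated tile -/
def tl (A : Set (V m)) (z : Fin (m + 1 + 2) → ℤ) : Set (V m) := {p | p - zv z ∈ A}

lemma tl_eq (A : Set (V m)) (z : Fin (m + 1 + 2) → ℤ) :
    tl A z = (IsometryEquiv.addRight (zv z)) '' A := by
  ext p
  constructor
  · intro h
    exact ⟨p - zv z, h, by simp⟩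
  · rintro ⟨q, hq, rfl⟩
    change (q + zv z) - zv z ∈ A
    rwa [add_sub_cancel_right]

lemma int_eq_of_lt {x y : ℤ} {u : ℝ} (h1 : (x : ℝ) < u) (h2 : u < x + 1) (h3 : (y : ℝ) < u)
    (h4 : u < y + 1) : x = y := by
  have h5 : (x : ℝ) < y + 1 := by linarith
  have h6 : (y : ℝ) < x + 1 := by linarith
  have h7 : x < y + 1 := by exact_mod_cast h5
  have h8 : y < x + 1 := by exact_mod_cast h6
  omega

/-- the index set of the patch -/
def ZZ (m : ℕ) (a t0 K : ℤ) : Set (Fin (m + 1 + 2) → ℤ) :=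
  {z | z 0 + t0 ∈ TT a ∧ ∀ i, i ≠ 0 → |z i| ≤ K}

lemma open_unique {a t0 K : ℤ} (ha : Odd a) (ha0 : 0 < a) {c r : ℝ} (hr : r ≤ 1 / 16)
    {z z' : Fin (m + 1 + 2) → ℤ} (hz : z ∈ ZZ m a t0 K) (hz' : z' ∈ ZZ m a t0 K) {y : V m}
    (h : y - zv z ∈ B0 (FF a) c r) (h' : y - zv z' ∈ B0 (FF a) c r) : z = z' := by
  obtain ⟨h1, f, hf, h2, h3⟩ := B0_sh hr h
  obtain ⟨h1', f', hf', h2', h3'⟩ := B0_sh hr h'
  have hi : ∀ i, i ≠ 0 → z i = z' i := by
    intro i hi
    have h4 := h1 i hi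
    have h5 := h1' i hi
    rw [sub_zv] at h4 h5
    exact int_eq_of_lt (u := y i) (by linarith [h4.1]) (by linarith [h4.2]) (by linarith [h5.1])
      (by linarith [h5.2])
  have hs : sh c r (y - zv z) = sh c r (y - zv z') := by
    refine sh_congr fun i h0 => ?_
    rw [sub_zv, sub_zv, hi i h0]
  rw [hs, sub_zv] at h2 h3
  rw [sub_zv] at h2' h3'
  have h6 : z 0 + f = z' 0 + f' := by
    refine int_eq_of_lt (u := y 0 - sh c r (y - zv z')) ?_ ?_ ?_ ?_ <;> push_cast <;> linarith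
  have h7 : z 0 + t0 = z' 0 + t0 :=
    TT_unique ha ha0 hz.1 hz'.1 hf hf' (by linarith)
  funext i
  by_cases h0 : i = 0
  · rw [h0]; linarith
  · exact hi i h0

lemma interiors_disjoint {a t0 K : ℤ} (ha : Odd a) (ha0 : 0 < a) {c r : ℝ} (hr0 : 0 < r)
    (hr : r ≤ 1 / 16) {z z' : Fin (m + 1 + 2) → ℤ} (hz : z ∈ ZZ m a t0 K) (hz' : z' ∈ ZZ m a t0 K)
    (hne : z ≠ z') :
    Disjoint (interior (tl (BB (FF a) c r) z)) (interior (tl (BB (FF a) c r) z')) := by
  rw [Set.disjoint_left]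
  intro x hx hx'
  have hO : IsOpen (interior (tl (BB (FF a) c r) z) ∩ interior (tl (BB (FF a) c r) z')) :=
    isOpen_interior.inter isOpen_interior
  have dens : ∀ (ξ : Fin (m + 1 + 2) → ℤ) (O : Set (V m)), IsOpen O → O ⊆ tl (BB (FF a) c r) ξ →
      O.Nonempty → ∃ y ∈ O, y - zv ξ ∈ B0 (FF a) c r := by
    intro ξ O hO hsub hne
    obtain ⟨y, hy⟩ := hne
    have h1 : y - zv ξ ∈ closure (B0 (FF a) c r) := BB_sub_closure hr0 hr (hsub hy)
    have hcont : Continuous (fun z : V m => z + zv ξ) := by fun_prop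
    have h2 : IsOpen {z : V m | z + zv ξ ∈ O} := hO.preimage hcont
    have h3 : y - zv ξ ∈ {z : V m | z + zv ξ ∈ O} := by
      simp only [mem_ofPred_eq, sub_add_cancel]; exact hy
    obtain ⟨z, hz1, hz2⟩ := mem_closure_iff.mp h1 _ h2 h3
    exact ⟨z + zv ξ, hz1, by rwa [add_sub_cancel_right]⟩
  obtain ⟨y, hy, hy1⟩ := dens z _ hO (fun z hz => interior_subset hz.1) ⟨x, hx, hx'⟩
  have hO2 : IsOpen ((interior (tl (BB (FF a) c r) z) ∩ interior (tl (BB (FF a) c r) z')) ∩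
      {w : V m | w - zv z ∈ B0 (FF a) c r}) := by
    refine hO.inter ?_
    have : Continuous (fun w : V m => w - zv z) := by fun_prop
    exact (isOpen_B0 _ _ _).preimage this
  obtain ⟨w, hw, hw1⟩ := dens z' _ hO2 (fun z hz => interior_subset hz.1.2) ⟨y, hy, hy1⟩
  exact hne (open_unique ha ha0 hr hz hz' hw.2 hw1)

lemma covered {a t0 K : ℤ} (ha : Odd a) (ha3 : 3 ≤ a) {c r : ℝ} (hc : 0 ≤ c) {y : V m}
    (hy : ∀ i, i ≠ 0 → |y i| ≤ K - 1) (h1 : 2 * (a : ℝ) + 2 + c ≤ y 0 + t0)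
    (h2 : y 0 + t0 ≤ (a : ℝ) ^ 2 + 4 * a + 1) :
    ∃ z ∈ ZZ m a t0 K, y ∈ tl (BB (FF a) c r) z := by
  set w : Fin (m + 1 + 2) → ℤ := fun i => ⌊y i⌋ with hw
  set σ := sh c r (y - zv w) with hσ
  have hloc : ∀ i, 0 ≤ y i - ⌊y i⌋ ∧ y i - ⌊y i⌋ ≤ 1 := fun i =>
    ⟨sub_nonneg.mpr (Int.floor_le _), by linarith [Int.lt_floor_add_one (y i)]⟩
  have hσb : -(1 / 32) ≤ σ ∧ σ ≤ c := by
    refine sh_bd hc ?_
    rw [sub_zv]
    exact hloc 1
  set n := ⌊y 0 + t0 - σ⌋ with hn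
  have hn1 : 2 * a + 2 ≤ n := by
    rw [hn, Int.le_floor]
    push_cast
    linarith [hσb.2]
  have hn2 : n < a ^ 2 + 4 * a + 2 := by
    rw [hn, Int.floor_lt]
    push_cast
    linarith [hσb.1]
  obtain ⟨t, ht, f, hf, htf⟩ := TT_cover ha ha3 hn1 hn2
  set z : Fin (m + 1 + 2) → ℤ := fun i => if i = 0 then t - t0 else w i with hz
  have hz0 : z 0 = t - t0 := by simp [hz]
  have hzi : ∀ i, i ≠ 0 → z i = w i := by
    intro i hi
    simp [hz, hi]
  have hsz : sh c r (y - zv z) = σ := by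
    rw [hσ]
    refine sh_congr fun i hi => ?_
    rw [sub_zv, sub_zv, hzi i hi]
  refine ⟨z, ⟨by rw [hz0, sub_add_cancel]; exact ht, fun i hi => ?_⟩, ?_⟩
  · rw [hzi i hi, hw]
    have h3 := abs_le.mp (hy i hi)
    have h4 : -K ≤ ⌊y i⌋ := by
      rw [Int.le_floor]; push_cast; linarith [h3.1]
    have h5 : ⌊y i⌋ ≤ K := by
      have : (⌊y i⌋ : ℝ) ≤ K := (Int.floor_le _).trans (by linarith [h3.2])
      exact_mod_cast this
    exact abs_le.mpr ⟨h4, h5⟩
  · have h6 : (n : ℝ) ≤ y 0 + t0 - σ := Int.floor_le _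
    have h7 : y 0 + t0 - σ < n + 1 := Int.lt_floor_add_one _
    have h8 : (n : ℝ) = t + f := by rw [← htf]; push_cast; ring
    refine BB_of_sh (f := f) (fun i hi => ?_) hf ?_ ?_
    · rw [sub_zv, hzi i hi]
      exact hloc i
    · rw [hsz, sub_zv, hz0]; push_cast; linarith
    · rw [hsz, sub_zv, hz0]; push_cast; linarith

lemma InT_bd {a t : ℤ} (ha0 : 0 < a) (h : InT a t) : 0 ≤ t ∧ t ≤ a ^ 2 + a := by
  obtain ⟨s, j, h1, h2, h3, rfl⟩ := h
  constructor
  · nlinarith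
  · nlinarith

lemma TT_bd {a t : ℤ} (ha0 : 0 < a) (h : t ∈ TT a) : 0 ≤ t ∧ t ≤ a ^ 2 + 4 * a := by
  rcases h with h | h
  · obtain ⟨h1, h2⟩ := InT_bd ha0 h
    constructor <;> nlinarith
  · obtain ⟨h1, h2⟩ := InT_bd ha0 h
    constructor <;> nlinarith

lemma ZZ_finite {a t0 K : ℤ} (ha0 : 0 < a) : (ZZ m a t0 K).Finite := by
  refine (Set.Finite.pi' (t := fun i : Fin (m + 1 + 2) =>
    if i = 0 then Set.Icc (-t0) (a ^ 2 + 4 * a - t0) else Set.Icc (-K) K) fun i => ?_).subset ?_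
  · split_ifs
    · exact Set.finite_Icc _ _
    · exact Set.finite_Icc _ _
  · rintro z ⟨h1, h2⟩ i
    split_ifs with hi
    · rw [hi]
      obtain ⟨h3, h4⟩ := TT_bd ha0 h1
      exact ⟨by linarith, by linarith⟩
    · exact abs_le.mp (h2 i hi)

theorem surrounded_BB (k : ℕ) (q : ℕ) (hq : q = (k + 1) * (m + 20)) {c r : ℝ} (hr0 : 0 < r)
    (hr : r ≤ 1 / 16) {a : ℤ} (ha : a = 4 * q + 1) (hc : c = (a : ℝ) + 3) :
    Surrounded k (BB (FF a) c r : Set (V m)) := by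
  have hq20 : 20 ≤ q := by rw [hq]; nlinarith
  have haodd : Odd a := ⟨2 * q, by rw [ha]; ring⟩
  have ha3 : 3 ≤ a := by rw [ha]; omega
  have ha0 : 0 < a := by omega
  have hacast : (a : ℝ) = 4 * q + 1 := by rw [ha]; push_cast; ring
  have hc0 : 0 ≤ c := by rw [hc, hacast]; positivity
  set t0 : ℤ := 2 * (a + 2) * q with ht0
  set R0 : ℤ := 8 * q ^ 2 - 6 * q - 8 with hR0
  set K : ℤ := R0 + 2 with hK
  have ht0T : t0 ∈ TT a := Or.inl ⟨q, 0, le_refl 0, by omega, by omega, by rw [ht0]; ring⟩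
  have hR0pos : 0 < R0 := by rw [hR0]; nlinarith [(by exact_mod_cast hq20 : (20 : ℤ) ≤ q)]
  have hFM : ∀ f ∈ FF a, (0 : ℝ) ≤ f ∧ (f : ℝ) ≤ 2 * a + 2 := by
    intro f hf
    have ha' : (0 : ℝ) < a := by exact_mod_cast ha0
    rcases mem_FF.mp hf with rfl | rfl | rfl | rfl
    · push_cast; constructor <;> linarith
    · push_cast; constructor <;> linarith
    · push_cast; constructor <;> linarith
    · push_cast; constructor <;> linarith
  have hFfin : (FF a).Finite := by unfold FF; simp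
  have hBcl : IsClosed (BB (FF a) c r : Set (V m)) := isClosed_BB hFfin c r
  have htl0 : tl (BB (FF a) c r : Set (V m)) 0 = BB (FF a) c r := by
    ext p
    have : (zv (0 : Fin (m + 1 + 2) → ℤ) : V m) = 0 := by
      ext i; rw [zv_apply]; simp
    change p - zv 0 ∈ (BB (FF a) c r : Set (V m)) ↔ _
    rw [this, sub_zero]
  refine surrounded_of_cover (P := (fun z => tl (BB (FF a) c r) z) '' ZZ m a t0 K)
    ((ZZ_finite ha0).image _) ?_ ?_ ?_ ?_ (δ := 2 * a + 2 + c + m + 4) (R := R0) ?_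
    (p0 := ax (1 / 2)) ?_ ?_ ?_
  · rintro _ ⟨z, -, rfl⟩
    have : Continuous (fun p : V m => p - zv z) := by fun_prop
    exact hBcl.preimage this
  · rintro _ ⟨z, -, rfl⟩
    exact ⟨_, tl_eq _ _⟩
  · refine ⟨0, ⟨by simpa using ht0T, fun i _ => ?_⟩, htl0⟩
    simp only [Pi.zero_apply, abs_zero]
    omega
  · rintro _ ⟨z, hz, rfl⟩ _ ⟨z', hz', rfl⟩ hne
    exact interiors_disjoint haodd ha0 hr0 hr hz hz' (fun h => hne (by rw [h]))
  · rintro _ ⟨z, -, rfl⟩ x hx y hy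
    have := BB_diam hc0 hr hFM hx hy
    rwa [dist_sub_right] at this
  · refine ⟨0, mem_FF.mpr (Or.inl rfl), Or.inr (Or.inl (O2_sub _ _ ?_))⟩
    have := ax_half_mem_O2 (m := m) hr0 0
    simpa using this
  · intro y hy
    rw [mem_ball, dist_eq_norm] at hy
    have hco : ∀ i, |y i - (ax (1 / 2) : V m) i| < R0 := by
      intro i
      have := abs_coord_le (y - ax (1 / 2)) i
      rw [PiLp.sub_apply] at this
      linarith
    have hy0 := abs_lt.mp (hco 0)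
    rw [ax_zero] at hy0
    have hR0c : (R0 : ℝ) = 8 * q ^ 2 - 6 * q - 8 := by rw [hR0]; push_cast; ring
    have ht0c : (t0 : ℝ) = 2 * (4 * q + 3) * q := by rw [ht0, ha]; push_cast; ring
    obtain ⟨z, hz, hyz⟩ := covered (K := K) (t0 := t0) haodd ha3 (r := r) hc0 (y := y)
      (fun i hi => by
        have h1 := abs_lt.mp (hco i)
        rw [ax_ne _ hi] at h1
        have h2 := cc_bd (m := m) hi
        rw [hK, abs_le]
        push_cast
        constructor <;> linarith [h1.1, h1.2, h2.1, h2.2])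
      (by rw [hc, hacast, ht0c]; nlinarith [hy0.1])
      (by
        rw [hacast, ht0c]
        have : (0 : ℝ) ≤ q := by positivity
        nlinarith [hy0.2])
    exact ⟨_, ⟨z, hz, rfl⟩, hyz⟩
  · rw [hc, hacast]
    have hR0c : (R0 : ℝ) = 8 * q ^ 2 - 6 * q - 8 := by rw [hR0]; push_cast; ring
    rw [hR0c]
    have hqc : (q : ℝ) = (k + 1) * (m + 20) := by rw [hq]; push_cast; ring
    have hk0 : (0 : ℝ) ≤ k := by positivity
    have hm0 : (0 : ℝ) ≤ m := by positivity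
    have h1 : (q : ℝ) ^ 2 = q * ((k + 1) * (m + 20)) := by rw [sq]; nth_rewrite 2 [hqc]; ring
    have hq1 : (20 : ℝ) ≤ q := by exact_mod_cast hq20
    have h2 : (k : ℝ) * m ≤ q := by rw [hqc]; nlinarith
    have h3 : (k : ℝ) * 20 ≤ q := by rw [hqc]; nlinarith
    have h4 : q * ((k : ℝ) * 20) + q * 20 ≤ (q : ℝ) ^ 2 := by
      rw [h1]
      have : (0 : ℝ) ≤ q := by linarith
      nlinarith [mul_nonneg this (mul_nonneg hk0 hm0), mul_nonneg this hm0]
    nlinarith [h4, h2, h3, hq1, mul_nonneg (by linarith : (0 : ℝ) ≤ q) hk0]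

end Pool.Agent.H58.HeeschC
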